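import Pool.Agent.Helper94_GRB.TRP

/-!
# Level 3 on four points, all hypergraphs (helper94)
-/

open MeasureTheory Matrix Finset

namespace Pool.Agent.GRB.H94

open Pool.Agent.Helper64_FR Pool.Agent.BSE Pool.Agent.BSE.H61

section form
variable (F : Fin 4 → Fin 4 → Fin 4 → ℝ)

/-- the certificate for a quadratic functional `D` of one-body vectors -/
noncomputable def P4 (D : (Fin 4 → ℝ) → ℝ) : ℝ :=
  (31 / 50) * (∑ k, D (fun i => cf F i k k)) +
    (3 / 20) * (∑ k, ∑ l, if k = l then 0 else D (fun i => cf F i k l)) +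
    (2 / 25) * (∑ k, D (fun i => ∑ l, if k = l then 0 else cf F i k l)) +
    (1 / 3) * D (fun i => F i i i)

theorem P4_mono {D E : (Fin 4 → ℝ) → ℝ} (h : ∀ y, D y ≤ E y) : P4 F D ≤ P4 F E := by
  unfold P4
  have h1 := sum_le_sum (s := (univ : Finset (Fin 4))) fun k _ => h (fun i => cf F i k k)
  have h2 := sum_le_sum (s := (univ : Finset (Fin 4))) fun k _ =>
    sum_le_sum (s := (univ : Finset (Fin 4))) fun l _ =>
      (show (if k = l then (0:ℝ) else D (fun i => cf F i k l)) ≤
        (if k = l then 0 else E (fun i => cf F i k l)) by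
        split_ifs
        · exact le_refl _
        · exact h _)
  have h3 := sum_le_sum (s := (univ : Finset (Fin 4))) fun k _ =>
    h (fun i => ∑ l, if k = l then 0 else cf F i k l)
  have h4 := h (fun i => F i i i)
  linarith

theorem P4_smul (a : ℝ) (D : (Fin 4 → ℝ) → ℝ) : P4 F (fun y => a * D y) = a * P4 F D := by
  unfold P4
  have h2 : ∀ k l : Fin 4, (if k = l then (0:ℝ) else a * D (fun i => cf F i k l)) =
      a * (if k = l then 0 else D (fun i => cf F i k l)) := by
    intro k l
    split_ifs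
    · rw [mul_zero]
    · rfl
  simp only [h2, ← mul_sum]
  ring

theorem P4_add (D E : (Fin 4 → ℝ) → ℝ) : P4 F (fun y => D y + E y) = P4 F D + P4 F E := by
  unfold P4
  have h2 : ∀ k l : Fin 4, (if k = l then (0:ℝ) else
      (D (fun i => cf F i k l) + E (fun i => cf F i k l))) =
      (if k = l then 0 else D (fun i => cf F i k l)) +
      (if k = l then 0 else E (fun i => cf F i k l)) := by
    intro k l
    split_ifs
    · rw [add_zero]
    · rfl
  simp only [h2, sum_add_distrib]
  ring

theorem P4_zero : P4 F (fun _ => 0) = 0 := by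
  unfold P4
  simp

theorem P4_sum {ι : Type*} (s : Finset ι) (w : ι → ℝ) (D : ι → (Fin 4 → ℝ) → ℝ) :
    P4 F (fun y => ∑ b ∈ s, w b * D b y) = ∑ b ∈ s, w b * P4 F (D b) := by
  classical
  induction s using Finset.induction_on with
  | empty => simpa using P4_zero F
  | insert a s ha ih =>
    simp only [sum_insert ha]
    rw [P4_add, ih, P4_smul]

theorem P4_pair (p q : Fin 4) : P4 F (fun y => (y p - y q) ^ 2) = k4 F p q := by
  unfold P4 k4
  have h3 : ∀ k : Fin 4, (∑ l, if k = l then 0 else cf F p k l) -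
      (∑ l, if k = l then 0 else cf F q k l) =
      ∑ l, if k = l then 0 else (cf F p k l - cf F q k l) := by
    intro k
    rw [← sum_sub_distrib]
    refine sum_congr rfl fun l _ => ?_
    split_ifs
    · rw [sub_zero]
    · rfl
  simp only [h3]

/-- the form of a block -/
noncomputable def KB4 (B : Finset (Fin 4)) : ℝ := P4 F (fun y => ∑ i, H47.dv B y i ^ 2)

theorem KB4_nonneg (B : Finset (Fin 4)) : 0 ≤ KB4 F B := by
  have h := P4_mono F (D := fun _ => 0) (E := fun y => ∑ i, H47.dv B y i ^ 2)
    (fun y => sum_nonneg fun i _ => sq_nonneg _)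
  rw [P4_zero] at h
  exact h

theorem KB4_small {B : Finset (Fin 4)} (hB : B.card ≤ 1) : KB4 F B = 0 := by
  unfold KB4
  simp only [dv_small hB]
  exact P4_zero F

theorem KB4_pair {p q : Fin 4} (hpq : p ≠ q) : KB4 F {p, q} = (1 / 2) * k4 F p q := by
  unfold KB4
  simp only [dv_pair hpq]
  rw [P4_smul, P4_pair]

theorem KB4_one {w : Finset (Fin 4) → ℝ} {μ : ℝ} (h : OneBody w μ) :
    μ * KB4 F univ ≤ ∑ B, w B * KB4 F B := by
  have h1 := P4_mono F (D := fun y => μ * ∑ i, H47.dv univ y i ^ 2)
    (E := fun y => ∑ B, w B * ∑ i, H47.dv B y i ^ 2) (fun y => h y)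
  rw [P4_smul, P4_sum F univ w (fun B y => ∑ i, H47.dv B y i ^ 2)] at h1
  exact h1

end form

section vals
variable {F : Fin 4 → Fin 4 → Fin 4 → ℝ} {p q k l : Fin 4}

theorem sum_tri (E : Ent F p q k l) (g : Fin 4 → ℝ) :
    ∑ j ∈ ({p, q, k} : Finset (Fin 4)), g j = g p + g q + g k := by
  rw [sum_insert, sum_insert, sum_singleton]
  · ring
  · simpa using E.qk
  · simp only [mem_insert, mem_singleton, not_or]
    exact ⟨E.pq, E.pk⟩

theorem card_tri (E : Ent F p q k l) : ((({p, q, k} : Finset (Fin 4)).card : ℕ) : ℝ) = 3 := by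
  have h1 := sum_tri E (fun _ => 1)
  simp only [sum_const, nsmul_eq_mul, mul_one] at h1
  rw [h1]
  norm_num

theorem dv_tri (E : Ent F p q k l) (y : Fin 4 → ℝ) :
    ∑ i, H47.dv ({p, q, k} : Finset (Fin 4)) y i ^ 2 =
      (1 / 3) * ((y p - y q) ^ 2 + ((y p - y k) ^ 2 + (y q - y k) ^ 2)) := by
  have hl : l ∉ ({p, q, k} : Finset (Fin 4)) := by
    simp only [mem_insert, mem_singleton, not_or]
    exact ⟨E.pl.symm, E.ql.symm, E.kl.symm⟩
  rw [E.uni, H47.dv_of_mem (by simp), H47.dv_of_mem (by simp), H47.dv_of_mem (by simp),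
    H47.dv_of_notMem hl, card_tri E, sum_tri E]
  ring

theorem KB4_tri (E : Ent F p q k l) :
    KB4 F {p, q, k} = (1 / 3) * (k4 F p q + k4 F p k + k4 F q k) := by
  unfold KB4
  simp only [dv_tri E]
  rw [P4_smul, P4_add, P4_add, P4_pair, P4_pair, P4_pair]
  ring

theorem KB4_univ (hS : Sym3 F) (hT : Tin3 F) : ip3 F F ≤ KB4 F univ := by
  have h1 : ∀ y : Fin 4 → ℝ, ∑ i, H47.dv univ y i ^ 2 =
      (1 / 8) * ∑ b : Fin 4 × Fin 4, 1 * (y b.1 - y b.2) ^ 2 := by
    intro y
    have h2 := dv_univ (n := 4) (by norm_num) y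
    have h3 : ∑ b : Fin 4 × Fin 4, 1 * (y b.1 - y b.2) ^ 2 = 2 * (4 * ∑ i, y i ^ 2 -
        (∑ i, y i) ^ 2) := by
      rw [Fintype.sum_prod_type]
      simp only [Fin.sum_univ_four]
      ring
    rw [h3]
    push_cast at h2
    linarith
  have h4 := t4 hS hT
  unfold KB4
  simp only [h1]
  rw [P4_smul, P4_sum F univ (fun _ : Fin 4 × Fin 4 => (1:ℝ))
    (fun (b : Fin 4 × Fin 4) (y : Fin 4 → ℝ) => (y b.1 - y b.2) ^ 2)]
  simp only [P4_pair]
  rw [Fintype.sum_prod_type]
  simp only [one_mul]
  linarith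

end vals

theorem cub4_of (rf3 : RF3Stmt) (in3 : IN3Stmt) (av3 : AV3Stmt) (un3 : UN3Stmt)
    (mo5 : MO5Stmt) (w : Finset (Fin 4) → ℝ) (hw : ∀ B, 0 ≤ w B) (μ x : ℝ)
    (f : (Fin 4 → ℝ) → ℂ) (hone : OneBody w μ) (hridge : IsRidge 3 f) (hne : ∃ c, f c ≠ 0)
    (heig : EigFun w x f) : μ ≤ x := by
  obtain ⟨F, hS, hT, ⟨c0, hc0⟩, hE⟩ := rf3 4 w x f hridge hne heig
  obtain ⟨in1, in2, in4⟩ := in3 4 F hS hT
  have hip := ip3_pos F hc0
  -- the tensors of the blocks
  have hG : ∀ B : Finset (Fin 4), ∃ G : Fin 4 → Fin 4 → Fin 4 → ℝ, Sym3 G ∧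
      (∀ c, cub F c - ∫ A : UB B, cub F (TB B (A : UU 4) c) ∂(haarB B) = cub G c) ∧
      (B ≠ univ → KB4 F B ≤ ip3 F G) ∧ (B = univ → ip3 F G = ip3 F F) := by
    intro B
    rcases le_or_gt B.card 1 with h1 | h1
    · refine ⟨fun _ _ _ => 0, ⟨fun _ _ _ => rfl, fun _ _ _ => rfl⟩, fun c => ?_, fun _ => ?_,
        fun h => ?_⟩
      · rw [in1 B h1 c]
        simp [cub]
      · rw [KB4_small F h1]
        simp [ip3]
      · rw [h] at h1
        simp at h1
    · rcases le_or_gt B.card 2 with h2 | h2
      · obtain ⟨p, q, hpq, rfl⟩ := Finset.card_eq_two.1 (le_antisymm h2 h1)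
        have hP := PT_sym p q F hS
        refine ⟨fun i j k => F i j k - PT p q F i j k,
          ⟨fun i j k => congrArg₂ (· - ·) (hS.1 i j k) (hP.1 i j k), fun i j k =>
            congrArg₂ (· - ·) (hS.2 i j k) (hP.2 i j k)⟩, fun c => ?_, fun _ => ?_,
          fun h => ?_⟩
        · rw [in2 p q hpq c, (av3 4 p q hpq F hS).2 c]
          unfold cub
          simp only [← sum_sub_distrib, sub_mul]
        · rw [KB4_pair F hpq]
          have h3 := q4 hS hT hpq
          have h4 : ip3 F (fun i j k => F i j k - PT p q F i j k) =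
              ip3 F F - ip3 F (PT p q F) := by
            unfold ip3
            simp only [← sum_sub_distrib, mul_sub]
          rw [h4]
          linarith
        · rw [h] at h2
          simp at h2
      · rcases le_or_gt B.card 3 with h3 | h3
        · obtain ⟨p, q, k, hpq, hpk, hqk, rfl⟩ := Finset.card_eq_three.1 (le_antisymm h3 h2)
          obtain ⟨a, b, hap, haq, hbp, hbq, hab, hu, -⟩ := four p q hpq
          -- the fourth point
          obtain ⟨l, hlp, hlq, hlk, hul⟩ : ∃ l : Fin 4, l ≠ p ∧ l ≠ q ∧ k ≠ l ∧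
              univ = ({p, q, k, l} : Finset (Fin 4)) := by
            have hk : k ∈ ({p, q, a, b} : Finset (Fin 4)) := by
              rw [← hu]
              exact mem_univ k
            simp only [mem_insert, mem_singleton] at hk
            rcases hk with hk | hk | hk | hk
            · exact absurd hk (Ne.symm hpk)
            · exact absurd hk (Ne.symm hqk)
            · subst hk
              exact ⟨b, hbp, hbq, hab, hu⟩
            · subst hk
              refine ⟨a, hap, haq, Ne.symm hab, ?_⟩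
              rw [hu, Finset.pair_comm]
          have E := ent hS hT hpq (Ne.symm hpk) (Ne.symm hqk) hlp hlq hlk hul
          have hg := g3_sym F l
          refine ⟨fun i j m => F i j m - g3 F l i j m,
            ⟨fun i j m => congrArg₂ (· - ·) (hS.1 i j m) (hg.1 i j m), fun i j m =>
              congrArg₂ (· - ·) (hS.2 i j m) (hg.2 i j m)⟩, fun c => ?_, fun _ => ?_,
            fun h => ?_⟩
          · rw [trp mo5 hS E c]
            unfold cub
            simp only [← sum_sub_distrib, sub_mul]
          · rw [KB4_tri E]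
            have h4 : ip3 F (fun i j m => F i j m - g3 F l i j m) =
                ip3 F F - ip3 F (g3 F l) := by
              unfold ip3
              simp only [← sum_sub_distrib, mul_sub]
            rw [h4, ip_g3 hS E]
            exact b4 hS E
          · rw [h] at h3
            simp at h3
        · have hB : B = univ := by
            apply Finset.eq_univ_of_card
            have := Finset.card_le_univ B
            rw [Fintype.card_fin] at this ⊢
            omega
          subst hB
          refine ⟨F, hS, fun c => ?_, fun h => absurd rfl h, fun _ => rfl⟩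
          rw [in4 c, sub_zero]
  choose G hG1 hG2 hG3 hG4 using hG
  -- the tensor equation
  have hten : ∀ i j k, ∑ B, w B * G B i j k + (-x) * F i j k = 0 := by
    apply un3 4 (fun i j k => ∑ B, w B * G B i j k + (-x) * F i j k)
    · constructor
      · intro i j k
        show ∑ B, w B * G B i j k + (-x) * F i j k = ∑ B, w B * G B j i k + (-x) * F j i k
        rw [hS.1 i j k]
        congr 1
        exact sum_congr rfl fun B _ => by rw [(hG1 B).1 i j k]
      · intro i j k
        show ∑ B, w B * G B i j k + (-x) * F i j k = ∑ B, w B * G B i k j + (-x) * F i k j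
        rw [hS.2 i j k]
        congr 1
        exact sum_congr rfl fun B _ => by rw [(hG1 B).2 i j k]
    · intro c
      rw [cub_add, cub_sum, cub_smul, ← sum_congr rfl fun B _ => congrArg (w B * ·) (hG2 B c),
        hE c]
      ring
  have hsum : ∑ B, w B * ip3 F (G B) = x * ip3 F F := by
    rw [← ip3_sum, ← ip3_smul]
    congr 1
    funext i j k
    linarith [hten i j k]
  have hmem : (univ : Finset (Fin 4)) ∈ (univ : Finset (Finset (Fin 4))) := mem_univ _
  rw [← Finset.add_sum_erase _ _ hmem, hG4 univ rfl] at hsum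
  have h1 := KB4_one F hone
  rw [← Finset.add_sum_erase _ _ hmem] at h1
  have h2 := KB4_univ hS hT
  have s5 : ∑ B ∈ (univ : Finset (Finset (Fin 4))).erase univ, w B * KB4 F B ≤
      ∑ B ∈ (univ : Finset (Finset (Fin 4))).erase univ, w B * ip3 F (G B) := by
    refine sum_le_sum fun B hB => ?_
    exact mul_le_mul_of_nonneg_left (hG3 B (ne_of_mem_erase hB)) (hw B)
  have s6 : 0 ≤ ∑ B ∈ (univ : Finset (Finset (Fin 4))).erase univ, w B * KB4 F B :=
    sum_nonneg fun B _ => mul_nonneg (hw B) (KB4_nonneg F B)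
  set W := w univ with hW
  have h5 : μ * ip3 F F ≤ x * ip3 F F := by
    rcases le_total μ W with h6 | h6
    · have := mul_le_mul_of_nonneg_right h6 hip.le
      linarith
    · have := mul_le_mul_of_nonneg_left h2 (sub_nonneg.2 h6)
      nlinarith
  exact le_of_mul_le_mul_right h5 hip

end Pool.Agent.GRB.H94
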