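import Pool.Agent.Helper94_GRB.FIN4

/-!
# The comparison theorem for all weighted hypergraphs (helper94)
-/

open MeasureTheory Matrix Finset
open scoped ComplexConjugate

namespace Pool.Agent.GRB.H94

open Pool.Agent.GRA Pool.Agent.Helper64_FR Pool.Agent.UTR Pool.Agent.BSE
open Pool.Agent.Helper64_FR.FIX Pool.Agent.Helper64_FR.LOW

variable {n : ℕ}

/-- pairs in place of the blocks with at most `b` elements -/
noncomputable def wp (b : ℕ) (w : Finset (Fin n) → ℝ) (B : Finset (Fin n)) : ℝ :=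
  if b < B.card then w B else
    if B.card = 2 then ∑ C : Finset (Fin n),
      (if B ⊆ C ∧ ¬ b < C.card then w C / ((C.card.choose 2 : ℕ) : ℝ) else 0) else 0

theorem wp_nonneg (b : ℕ) (w : Finset (Fin n) → ℝ) (hw : ∀ B, 0 ≤ w B) (B : Finset (Fin n)) :
    0 ≤ wp b w B := by
  unfold wp
  split_ifs
  · exact hw _
  · refine Finset.sum_nonneg fun C _ => ?_
    split_ifs
    · exact div_nonneg (hw _) (Nat.cast_nonneg _)
    · exact le_refl _
  · exact le_refl _

theorem wp_sum {b : ℕ} (hb : 2 ≤ b) (w F : Finset (Fin n) → ℝ) :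
    ∑ B : Finset (Fin n), wp b w B * F B =
      ∑ B ∈ Finset.univ.filter (fun B : Finset (Fin n) => b < B.card), w B * F B +
      ∑ C ∈ Finset.univ.filter (fun B : Finset (Fin n) => ¬ b < B.card),
        w C / ((C.card.choose 2 : ℕ) : ℝ) * ∑ B ∈ C.powersetCard 2, F B := by
  rw [← Finset.sum_filter_add_sum_filter_not Finset.univ
    (fun B : Finset (Fin n) => b < B.card)]
  congr 1
  · refine Finset.sum_congr rfl fun B hB => ?_
    simp only [Finset.mem_filter, Finset.mem_univ, true_and] at hB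
    unfold wp
    rw [if_pos hB]
  · have h1 : ∀ B ∈ Finset.univ.filter (fun B : Finset (Fin n) => ¬ b < B.card),
        wp b w B * F B = ∑ C : Finset (Fin n), (if ¬ b < C.card then (if B.card = 2 ∧ B ⊆ C then
          w C / ((C.card.choose 2 : ℕ) : ℝ) * F B else 0) else 0) := by
      intro B hB
      simp only [Finset.mem_filter, Finset.mem_univ, true_and] at hB
      unfold wp
      rw [if_neg hB]
      by_cases h2 : B.card = 2
      · rw [if_pos h2, Finset.sum_mul]
        refine Finset.sum_congr rfl fun C _ => ?_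
        by_cases h3 : b < C.card
        · rw [if_neg (fun h => h.2 h3), if_neg (not_not.2 h3), zero_mul]
        · rw [if_pos h3]
          by_cases h4 : B ⊆ C
          · rw [if_pos ⟨h4, h3⟩, if_pos ⟨h2, h4⟩]
          · rw [if_neg (fun h => h4 h.1), if_neg (fun h => h4 h.2), zero_mul]
      · rw [if_neg h2, zero_mul]
        symm
        refine Finset.sum_eq_zero fun C _ => ?_
        have h5 : ¬ (B.card = 2 ∧ B ⊆ C) := fun h => h2 h.1
        rw [if_neg h5, ite_self]
    rw [Finset.sum_congr rfl h1, Finset.sum_comm, ← Finset.sum_filter_add_sum_filter_not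
      Finset.univ (fun B : Finset (Fin n) => b < B.card)]
    have h2 : ∑ C ∈ Finset.univ.filter (fun B : Finset (Fin n) => b < B.card),
        ∑ B ∈ Finset.univ.filter (fun B : Finset (Fin n) => ¬ b < B.card),
        (if ¬ b < C.card then (if B.card = 2 ∧ B ⊆ C then
          w C / ((C.card.choose 2 : ℕ) : ℝ) * F B else 0) else 0) = 0 := by
      refine Finset.sum_eq_zero fun C hC => Finset.sum_eq_zero fun B _ => ?_
      simp only [Finset.mem_filter, Finset.mem_univ, true_and] at hC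
      rw [if_neg (not_not.2 hC)]
    rw [h2, zero_add]
    refine Finset.sum_congr rfl fun C hC => ?_
    simp only [Finset.mem_filter, Finset.mem_univ, true_and] at hC
    simp only [if_pos hC]
    rw [Finset.mul_sum, ← Finset.sum_filter, Finset.filter_filter]
    refine Finset.sum_congr ?_ fun _ _ => rfl
    ext B
    simp only [Finset.mem_filter, Finset.mem_univ, true_and, Finset.mem_powersetCard]
    constructor
    · rintro ⟨-, h3, h4⟩
      exact ⟨h4, h3⟩
    · rintro ⟨h3, h4⟩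
      exact ⟨by omega, h4, h3⟩

theorem pairs_vb (C : Finset (Fin n)) (y : Fin n → ℝ) :
    ∑ B ∈ C.powersetCard 2, H56.vb B y = (C.card : ℝ) / 2 * H56.vb C y := by
  have h1 := H94.pair_sum (fun B : Finset (Fin n) => if B ⊆ C then H56.vb B y else 0)
  have h2 : ∑ B ∈ Finset.univ.filter (fun B : Finset (Fin n) => B.card = 2),
      (if B ⊆ C then H56.vb B y else 0) = ∑ B ∈ C.powersetCard 2, H56.vb B y := by
    rw [← Finset.sum_filter, Finset.filter_filter]
    refine Finset.sum_congr ?_ fun _ _ => rfl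
    ext B
    simp only [Finset.mem_filter, Finset.mem_univ, true_and, Finset.mem_powersetCard]
    exact and_comm
  have h3 : ∑ i : Fin n, ∑ j : Fin n, (if i = j then 0 else
      (if ({i, j} : Finset (Fin n)) ⊆ C then H56.vb {i, j} y else 0)) =
      ∑ i ∈ C, ∑ j ∈ C, 1 / 2 * (y i - y j) ^ 2 := by
    have h4 : ∀ i j : Fin n, (if i = j then 0 else
        (if ({i, j} : Finset (Fin n)) ⊆ C then H56.vb {i, j} y else 0)) =
        (if i ∈ C then (if j ∈ C then 1 / 2 * (y i - y j) ^ 2 else 0) else 0) := by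
      intro i j
      have h5 : (({i, j} : Finset (Fin n)) ⊆ C) ↔ (i ∈ C ∧ j ∈ C) := by
        rw [Finset.insert_subset_iff, Finset.singleton_subset_iff]
      by_cases hij : i = j
      · subst hij
        simp
      · rw [if_neg hij, H56.vb_pair hij]
        by_cases hi : i ∈ C
        · by_cases hj : j ∈ C
          · rw [if_pos (h5.2 ⟨hi, hj⟩), if_pos hi, if_pos hj]
          · rw [if_neg (fun h => hj (h5.1 h).2), if_pos hi, if_neg hj]
        · rw [if_neg (fun h => hi (h5.1 h).1), if_neg hi]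
    simp only [h4]
    rw [Finset.sum_congr rfl fun i _ => (show ∑ j : Fin n, (if i ∈ C then
        (if j ∈ C then 1 / 2 * (y i - y j) ^ 2 else 0) else 0) =
        if i ∈ C then ∑ j ∈ C, 1 / 2 * (y i - y j) ^ 2 else 0 by
      by_cases hi : i ∈ C
      · simp only [if_pos hi]
        rw [Finset.sum_ite_mem, Finset.univ_inter]
      · simp only [if_neg hi]
        exact Finset.sum_const_zero)]
    rw [Finset.sum_ite_mem, Finset.univ_inter]
  rw [h3, h2] at h1
  have h6 : ∑ i ∈ C, ∑ j ∈ C, 1 / 2 * (y i - y j) ^ 2 =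
      C.card * ∑ i ∈ C, y i ^ 2 - (∑ i ∈ C, y i) ^ 2 := by
    have h7 : ∀ i j : Fin n, 1 / 2 * (y i - y j) ^ 2 =
        1 / 2 * y i ^ 2 - y i * y j + 1 / 2 * y j ^ 2 := fun i j => by ring
    simp only [h7, Finset.sum_add_distrib, Finset.sum_sub_distrib, ← Finset.mul_sum,
      ← Finset.sum_mul, Finset.sum_const, nsmul_eq_mul]
    ring
  have h8 : (C.card : ℝ) * H56.vb C y = C.card * ∑ i ∈ C, y i ^ 2 - (∑ i ∈ C, y i) ^ 2 := by
    rw [H56.vb_eq]
    rcases C.eq_empty_or_nonempty with hC | hC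
    · rw [hC]; simp
    · have hc : (C.card : ℝ) ≠ 0 := by
        have : (0 : ℝ) < C.card := by exact_mod_cast hC.card_pos
        exact this.ne'
      have h9 : ∀ i, (y i - (∑ j ∈ C, y j) / (C.card : ℝ)) ^ 2 =
          y i ^ 2 - 2 * ((∑ j ∈ C, y j) / C.card) * y i + ((∑ j ∈ C, y j) / C.card) ^ 2 := by
        intro i
        ring
      simp only [h9]
      rw [Finset.sum_add_distrib, Finset.sum_sub_distrib, ← Finset.mul_sum, Finset.sum_const,
        nsmul_eq_mul]
      field_simp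
      ring
  rw [h6, ← h8] at h1
  linarith

theorem wp_one (w : Finset (Fin n) → ℝ) (hw : ∀ B, 0 ≤ w B) (b : ℕ) (hb : 2 ≤ b)
    (μ : ℝ) (h : OneBody w μ) : OneBody (wp b w) (μ / (b - 1)) := by
  have hb1 : (1 : ℝ) ≤ (b : ℝ) - 1 := by
    have : (2 : ℝ) ≤ b := by exact_mod_cast hb
    linarith
  have hb0 : (0 : ℝ) < (b : ℝ) - 1 := by linarith
  have hb2 : 1 / ((b : ℝ) - 1) ≤ 1 := by
    rw [div_le_one hb0]
    exact hb1
  intro y
  have h1 := h y
  change μ * H56.vb Finset.univ y ≤ ∑ B : Finset (Fin n), w B * H56.vb B y at h1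
  change μ / (b - 1) * H56.vb Finset.univ y ≤ ∑ B : Finset (Fin n), wp b w B * H56.vb B y
  rw [wp_sum hb]
  rw [← Finset.sum_filter_add_sum_filter_not Finset.univ
    (fun B : Finset (Fin n) => b < B.card)] at h1
  have hvn : ∀ B : Finset (Fin n), 0 ≤ H56.vb B y := fun B =>
    Finset.sum_nonneg fun i _ => sq_nonneg _
  have h2 : 1 / ((b : ℝ) - 1) * ∑ C ∈ Finset.univ.filter
      (fun B : Finset (Fin n) => ¬ b < B.card), w C * H56.vb C y ≤
      ∑ C ∈ Finset.univ.filter (fun B : Finset (Fin n) => ¬ b < B.card),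
        w C / ((C.card.choose 2 : ℕ) : ℝ) * ∑ B ∈ C.powersetCard 2, H56.vb B y := by
    rw [Finset.mul_sum]
    refine Finset.sum_le_sum fun C hC => ?_
    simp only [Finset.mem_filter, Finset.mem_univ, true_and] at hC
    rw [pairs_vb]
    by_cases hc1 : C.card ≤ 1
    · rw [H56.vb_small hc1]
      simp
    · have hc2 : (2 : ℝ) ≤ C.card := by
        have : 2 ≤ C.card := by omega
        exact_mod_cast this
      have hcb' : (C.card : ℝ) ≤ b := by
        have : C.card ≤ b := by omega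
        exact_mod_cast this
      rw [Nat.cast_choose_two]
      have e1 : w C / ((C.card : ℝ) * (C.card - 1) / 2) * ((C.card : ℝ) / 2 * H56.vb C y) =
          1 / ((C.card : ℝ) - 1) * (w C * H56.vb C y) := by
        have : (C.card : ℝ) - 1 ≠ 0 := by
          intro h9
          linarith
        field_simp
      rw [e1]
      refine mul_le_mul_of_nonneg_right ?_ (mul_nonneg (hw C) (hvn C))
      exact one_div_le_one_div_of_le (by linarith) (by linarith)
  have h3 : 1 / ((b : ℝ) - 1) * ∑ B ∈ Finset.univ.filter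
      (fun B : Finset (Fin n) => b < B.card), w B * H56.vb B y ≤
      ∑ B ∈ Finset.univ.filter (fun B : Finset (Fin n) => b < B.card), w B * H56.vb B y := by
    have e2 := mul_le_mul_of_nonneg_right hb2 (Finset.sum_nonneg
      (s := Finset.univ.filter (fun B : Finset (Fin n) => b < B.card))
      fun B _ => mul_nonneg (hw B) (hvn B))
    linarith
  have h4 : μ / (b - 1) * H56.vb Finset.univ y = 1 / ((b : ℝ) - 1) * (μ *
      H56.vb Finset.univ y) := by ring
  rw [h4]
  have h5 := mul_le_mul_of_nonneg_left h1 (show (0:ℝ) ≤ 1 / ((b : ℝ) - 1) by positivity)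
  rw [mul_add] at h5
  linarith

theorem fix_sub (ρ : URep n) {B C : Finset (Fin n)} (h : B ⊆ C) (v : ρ.Sp) :
    ‖v - ρ.P B v‖ ^ 2 ≤ ‖v - ρ.P C v‖ ^ 2 := by
  have h1 : ∀ g ∈ UB B, ρ.op g (ρ.P C v) = ρ.P C v := by
    intro g hg
    refine P_apply_inv ρ C v g ?_
    intro i j hij
    refine hg i j ?_
    rcases hij with h2 | h2
    · exact Or.inl fun h3 => h2 (h h3)
    · exact Or.inr fun h3 => h2 (h h3)
  have h2 : ρ.P B (ρ.P C v) = ρ.P C v := P_inv ρ B _ h1
  have h3 : v - ρ.P B v = (1 - ρ.P B) (v - ρ.P C v) := by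
    have e1 : (1 - ρ.P B) (v - ρ.P C v) = (v - ρ.P C v) - ρ.P B (v - ρ.P C v) := rfl
    rw [e1, map_sub, h2]
    abel
  have h4 : ‖(1 - ρ.P B) (v - ρ.P C v)‖ ^ 2 ≤ ‖v - ρ.P C v‖ ^ 2 := by
    set u := v - ρ.P C v with hu
    have e1 : (1 - ρ.P B) u = u - ρ.P B u := rfl
    have e2 := inner_one_sub_P ρ B u
    have e3 : ‖inner ℂ u ((1 - ρ.P B) u)‖ ≤ ‖u‖ * ‖(1 - ρ.P B) u‖ := norm_inner_le_norm _ _
    rw [e2, Complex.norm_real, Real.norm_of_nonneg (sq_nonneg _), ← e1] at e3
    have e4 : ‖(1 - ρ.P B) u‖ ≤ ‖u‖ := by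
      by_contra h5
      have h5 := not_le.1 h5
      have h6 : 0 < ‖(1 - ρ.P B) u‖ := (norm_nonneg u).trans_lt h5
      nlinarith
    exact pow_le_pow_left₀ (norm_nonneg _) e4 2
  rw [h3]
  exact h4

theorem wp_energy {b : ℕ} (hb : 2 ≤ b) (w : Finset (Fin n) → ℝ) (hw : ∀ B, 0 ≤ w B)
    (ρ : URep n) (v : ρ.Sp) : ∑ B : Finset (Fin n), wp b w B * ‖v - ρ.P B v‖ ^ 2 ≤
      ∑ B : Finset (Fin n), w B * ‖v - ρ.P B v‖ ^ 2 := by
  rw [wp_sum hb, ← Finset.sum_filter_add_sum_filter_not Finset.univ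
    (fun B : Finset (Fin n) => b < B.card)]
  refine add_le_add le_rfl (Finset.sum_le_sum fun C _ => ?_)
  have h1 : ∑ B ∈ C.powersetCard 2, ‖v - ρ.P B v‖ ^ 2 ≤
      ((C.card.choose 2 : ℕ) : ℝ) * ‖v - ρ.P C v‖ ^ 2 := by
    have h2 : ∑ B ∈ C.powersetCard 2, ‖v - ρ.P B v‖ ^ 2 ≤
        ∑ B ∈ C.powersetCard 2, ‖v - ρ.P C v‖ ^ 2 :=
      Finset.sum_le_sum fun B hB => fix_sub ρ (Finset.mem_powersetCard.1 hB).1 v
    rw [Finset.sum_const, Finset.card_powersetCard, nsmul_eq_mul] at h2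
    exact h2
  have h3 := mul_le_mul_of_nonneg_left h1
    (div_nonneg (hw C) (Nat.cast_nonneg (C.card.choose 2) : (0 : ℝ) ≤ _))
  refine h3.trans ?_
  by_cases h4 : ((C.card.choose 2 : ℕ) : ℝ) = 0
  · rw [h4]
    simp only [zero_mul, mul_zero]
    exact mul_nonneg (hw C) (sq_nonneg _)
  · rw [← mul_assoc, div_mul_cancel₀ _ h4]

/-- The comparison theorem. -/
theorem fac (hn : 2 ≤ n) (w : Finset (Fin n) → ℝ) (hw : ∀ B, 0 ≤ w B) (μ : ℝ)
    (h : OneBody w μ) (ρ : URep n) (hρ : ρ.Irred) (hN : NTr ρ) (hb2 : ¬ IsBose 2 ρ)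
    (b : ℕ) (hb : 2 ≤ b) (hB : ∀ B, w B ≠ 0 → B.card ≤ b ∨ n ≤ B.card + 1 ∨ Dead ρ B)
    (h3 : IsBose 3 ρ → 4 < n → ∀ B, w B ≠ 0 → B.card ≤ b ∨ B = Finset.univ) :
    μ ≤ ((b : ℝ) - 1) * ρ.lamMin w := by
  have hb1 : (1 : ℝ) ≤ (b : ℝ) - 1 := by
    have : (2 : ℝ) ≤ b := by exact_mod_cast hb
    linarith
  have h1 := core hn (wp b w) (wp_nonneg b w hw) _ (wp_one w hw b hb μ h) ρ hρ hN hb2 (by
      intro B hB0
      unfold wp at hB0
      split_ifs at hB0 with h2 h3
      · right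
        rcases hB B hB0 with h | h | h
        · omega
        · exact Or.inl h
        · exact Or.inr h
      · left
        omega
      · exact absurd rfl hB0) (by
      intro hk h4 B hB0
      unfold wp at hB0
      split_ifs at hB0 with h2 h5
      · rcases h3 hk h4 B hB0 with h | h
        · omega
        · exact Or.inr h
      · left
        omega
      · exact absurd rfl hB0)
  have h2 : ρ.lamMin (wp b w) ≤ ρ.lamMin w := by
    refine le_csInf (LOW.eig_nonempty ρ hρ.1 w) ?_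
    rintro x ⟨v, hv0, hv⟩
    have e1 := Pool.Agent.UTR.H33.eig_formula ρ w _ x
      (Pool.Agent.UTR.H33.lapOp_of_lap ρ w v x hv)
    have e2 : 0 < ‖(WithLp.toLp 2 v : ρ.Sp)‖ ^ 2 := by
      have := norm_pos_iff.2 (Pool.Agent.UTR.H33.toLp_ne ρ v hv0)
      positivity
    have e3 := rayleigh ρ (wp b w) (wp_nonneg b w hw) (WithLp.toLp 2 v)
    have e4 := wp_energy hb w hw ρ (WithLp.toLp 2 v)
    refine le_of_mul_le_mul_right ?_ e2
    rw [e1]
    exact e3.trans e4
  have h5 := h1.trans h2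
  rw [div_le_iff₀ (by linarith)] at h5
  linarith

end Pool.Agent.GRB.H94
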