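import Pool.Agent.Helper94_GRB.NSB
import Pool.Agent.Helper33_UTR.Onu
import Pool.Agent.Helper47_BSE.Fin2
import Pool.Agent.Helper47_BSE.Fin7

/-!
# Blocks with at most two or at least `n - 1` elements; the comparison theorem (helper94)
-/

open MeasureTheory Matrix Finset
open scoped ComplexConjugate

namespace Pool.Agent.GRB.H94

open Pool.Agent.GRA Pool.Agent.Helper64_FR Pool.Agent.UTR Pool.Agent.BSE
open Pool.Agent.Helper64_FR.FIX Pool.Agent.Helper64_FR.LOW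

variable {n : ℕ}

theorem cub4 (w : Finset (Fin 4) → ℝ) (hw : ∀ B, 0 ≤ w B) (μ x : ℝ)
    (f : (Fin 4 → ℝ) → ℂ) (hone : OneBody w μ) (hridge : IsRidge 3 f) (hne : ∃ c, f c ≠ 0)
    (heig : EigFun w x f) : μ ≤ x :=
  cub4_of H72.rf3 (H60.in3 (H60.mo3 H47.mo2 H81.inv) H81.inv) H76.av3 H72.un3 H47.mo5
    w hw μ x f hone hridge hne heig

/-- The theorem in the form with the one-body inequality. -/
theorem core (hn : 2 ≤ n) (w : Finset (Fin n) → ℝ) (hw : ∀ B, 0 ≤ w B) (μ : ℝ)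
    (hone : OneBody w μ) (ρ : URep n) (hρ : ρ.Irred) (hN : NTr ρ) (hb2 : ¬ IsBose 2 ρ)
    (hB : ∀ B, w B ≠ 0 → B.card ≤ 2 ∨ n ≤ B.card + 1 ∨ Dead ρ B)
    (h3 : IsBose 3 ρ → 4 < n → ∀ B, w B ≠ 0 → B.card ≤ 2 ∨ B = Finset.univ) :
    μ ≤ ρ.lamMin w := by
  refine le_csInf (LOW.eig_nonempty ρ hρ.1 w) ?_
  rintro x ⟨v, hv0, hv⟩
  by_cases hS : NSph ρ
  · rcases Pool.Agent.BSE.H81.wts n hn ρ w hw _ hone x v hv0 hv with h | h
    · exact h
    have hT : TInv ρ (WithLp.toLp 2 v) := by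
      intro i g hg
      rw [URep.op_toLp, h i g hg]
    have hv1 : (WithLp.toLp 2 v : ρ.Sp) ≠ 0 := fun h0 => hv0 (by
      have := congrArg WithLp.ofLp h0
      exact this)
    have hpos : 0 < ‖(WithLp.toLp 2 v : ρ.Sp)‖ ^ 2 := by
      have := norm_pos_iff.2 hv1
      positivity
    rcases Nat.lt_or_ge n 3 with h3' | h3'
    · obtain rfl : n = 2 := by omega
      have hcard : ∀ B : Finset (Fin 2), B ≠ Finset.univ → B.card ≤ 1 := by
        intro B hB
        have h1 : B.card < 2 := by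
          have h2 := Finset.card_lt_card (Finset.ssubset_univ_iff.2 hB)
          simpa using h2
        omega
      have e1 := Pool.Agent.GRA.H94.eig_sq ρ w (WithLp.toLp 2 v) x (congrArg (WithLp.toLp 2) hv)
      rw [Finset.sum_eq_single Finset.univ (fun B _ hB => by
          rw [Pool.Agent.GRA.H94.P_small ρ _ hT B (hcard B hB), sub_self, norm_zero]
          ring) (fun h => (h (Finset.mem_univ _)).elim),
        Pool.Agent.GRA.H94.P_univ_zero' ρ hρ hN, sub_zero] at e1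
      have e2 : x = w Finset.univ := mul_right_cancel₀ hpos.ne' e1
      have e3 := hone (Pi.single 0 1)
      rw [Finset.sum_eq_single (Finset.univ : Finset (Fin 2)) (fun B _ hB => by
          rw [Finset.sum_eq_zero fun i _ => by
            rw [Pool.Agent.GRA.H65.dv_small B (hcard B hB)]; norm_num]
          ring) (fun h => (h (Finset.mem_univ _)).elim)] at e3
      have e4 : 0 < ∑ i, H47.dv (Finset.univ : Finset (Fin 2)) (Pi.single 0 1) i ^ 2 := by
        refine Finset.sum_pos' (fun i _ => sq_nonneg _) ⟨0, Finset.mem_univ _, ?_⟩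
        unfold H47.dv
        simp
        norm_num
      rw [e2]
      exact le_of_mul_le_mul_right e3 e4
    · refine nsb h3' w hw ρ hρ hS (fun B hB0 => ?_) μ hone x _ hT hv1
        (congrArg (WithLp.toLp 2) hv)
      rcases hB B hB0 with h | h | h
      · exact Or.inl h
      · exact Or.inr (dead_of_nsph hρ hN hS (by omega))
      · exact Or.inr h
  · obtain ⟨k, hk⟩ := Pool.Agent.GRA.H47.ksp n hn ρ hρ hS
    rcases Nat.lt_or_ge k 3 with h3' | h3'
    · interval_cases k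
      · exact (hN (Pool.Agent.GRA.H65.kb0 n ρ hk)).elim
      · exact Pool.Agent.GRA.H47.kb1 n hn ρ hk w hw _ hone x v hv0 hv
      · exact (hb2 hk).elim
    · obtain ⟨hd, hr⟩ := Pool.Agent.BSE.H47.red n k hn ρ hk
      rcases hr w hw _ hone x v hv0 hv with h | ⟨f, hf, hne, hE⟩
      · exact h
      · rcases Nat.lt_or_ge k 4 with h4 | h4
        · obtain rfl : k = 3 := by omega
          by_cases hn4 : n = 4
          · subst hn4
            exact cub4 w hw _ x f hone hf hne hE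
          · refine Pool.Agent.BSE.H47.cub H47.mo2 n w hw (fun B hB0 => ?_) _ x f hone hf hne hE
            rcases Nat.lt_or_ge 4 n with h5 | h5
            · exact h3 hk h5 B hB0
            · by_cases hu : B = Finset.univ
              · exact Or.inr hu
              · left
                have h6 := Finset.card_lt_card (Finset.ssubset_univ_iff.2 hu)
                rw [Finset.card_univ, Fintype.card_fin] at h6
                omega
        · exact Pool.Agent.BSE.H47.sup H47.mo2 n k h4 w hw _ x f hone hf hne hE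

/-- The energy of a vector is at least `lamMin` times the square of its norm. -/
theorem rayleigh (ρ : URep n) (w : Finset (Fin n) → ℝ) (hw : ∀ B, 0 ≤ w B) (v : ρ.Sp) :
    ρ.lamMin w * ‖v‖ ^ 2 ≤ ∑ B : Finset (Fin n), w B * ‖v - ρ.P B v‖ ^ 2 := by
  by_cases hv0 : v = 0
  · subst hv0
    simp
  have hform : ∀ u : ρ.Sp, inner ℂ u (lapOp ρ w u) =
      ((∑ B : Finset (Fin n), w B * ‖u - ρ.P B u‖ ^ 2 : ℝ) : ℂ) := by
    intro u
    rw [lapOp_eq, _root_.sum_apply, inner_sum, Complex.ofReal_sum]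
    refine Finset.sum_congr rfl fun B _ => ?_
    have h3 : ((w B : ℂ) • (1 - ρ.P B)) u = (w B : ℂ) • ((1 - ρ.P B) u) := rfl
    rw [h3, inner_smul_right, inner_one_sub_P]
    push_cast
    rfl
  have hsym : ((lapOp ρ w : ρ.Sp →L[ℂ] ρ.Sp) : ρ.Sp →ₗ[ℂ] ρ.Sp).IsSymmetric :=
    ContinuousLinearMap.isSelfAdjoint_iff_isSymmetric.1 (star_lapOp ρ w)
  haveI : Nontrivial ρ.Sp := ⟨⟨v, 0, hv0⟩⟩
  have heig := hsym.hasEigenvalue_iInf_of_finiteDimensional
  have hq : ∀ u : ρ.Sp, RCLike.re (inner ℂ (((lapOp ρ w : ρ.Sp →L[ℂ] ρ.Sp) :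
      ρ.Sp →ₗ[ℂ] ρ.Sp) u) u) = ∑ B : Finset (Fin n), w B * ‖u - ρ.P B u‖ ^ 2 := by
    intro u
    have h1 : inner ℂ (((lapOp ρ w : ρ.Sp →L[ℂ] ρ.Sp) : ρ.Sp →ₗ[ℂ] ρ.Sp) u) u =
        inner ℂ u (lapOp ρ w u) := hsym u u
    rw [h1, hform]
    exact RCLike.ofReal_re _
  set t : ℝ := ⨅ u : { u : ρ.Sp // u ≠ 0 }, RCLike.re (inner ℂ (((lapOp ρ w :
      ρ.Sp →L[ℂ] ρ.Sp) : ρ.Sp →ₗ[ℂ] ρ.Sp) u) (u : ρ.Sp)) / ‖(u : ρ.Sp)‖ ^ 2 with ht
  have hnn : ∀ u : ρ.Sp, 0 ≤ ∑ B : Finset (Fin n), w B * ‖u - ρ.P B u‖ ^ 2 := fun u =>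
    Finset.sum_nonneg fun B _ => mul_nonneg (hw B) (sq_nonneg _)
  have h1 : t ≤ (∑ B : Finset (Fin n), w B * ‖v - ρ.P B v‖ ^ 2) / ‖v‖ ^ 2 := by
    have h2 := ciInf_le (f := fun u : { u : ρ.Sp // u ≠ 0 } => RCLike.re (inner ℂ (((lapOp ρ w :
      ρ.Sp →L[ℂ] ρ.Sp) : ρ.Sp →ₗ[ℂ] ρ.Sp) u) (u : ρ.Sp)) / ‖(u : ρ.Sp)‖ ^ 2)
      ⟨0, by
        rintro _ ⟨u, rfl⟩
        simp only [hq]
        exact div_nonneg (hnn u) (sq_nonneg _)⟩ ⟨v, hv0⟩
    simp only [hq] at h2
    rw [ht]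
    simp only [hq]
    exact h2
  have h2 : ρ.lamMin w ≤ t := by
    obtain ⟨u, hu⟩ := heig.exists_hasEigenvector
    have hu1 := hu.apply_eq_smul
    refine csInf_le ⟨0, ?_⟩ ⟨WithLp.ofLp u, ?_, ?_⟩
    · rintro x ⟨z, hz0, hz⟩
      have e1 := Pool.Agent.UTR.H33.eig_formula ρ w _ x
        (Pool.Agent.UTR.H33.lapOp_of_lap ρ w z x hz)
      have e2 : 0 < ‖(WithLp.toLp 2 z : ρ.Sp)‖ ^ 2 := by
        have := norm_pos_iff.2 (Pool.Agent.UTR.H33.toLp_ne ρ z hz0)
        positivity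
      have e3 := hnn (WithLp.toLp 2 z)
      rw [← e1] at e3
      exact nonneg_of_mul_nonneg_left e3 e2
    · intro h0
      apply hu.2
      have : u = WithLp.toLp 2 (WithLp.ofLp u) := rfl
      rw [this, h0]
      rfl
    · exact congrArg WithLp.ofLp hu1
  have hpos : 0 < ‖v‖ ^ 2 := by
    have := norm_pos_iff.2 hv0
    positivity
  rw [le_div_iff₀ hpos] at h1
  exact (mul_le_mul_of_nonneg_right h2 hpos.le).trans h1

end Pool.Agent.GRB.H94
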