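import Pool.Agent.Helper94_GRB.FAC

/-!
# Final form (helper94)
-/

open Matrix Finset

namespace Pool.Agent.GRB.H94

open Pool.Agent.GRA Pool.Agent.Helper64_FR Pool.Agent.UTR Pool.Agent.BSE

variable {n : ℕ}

theorem dead_of_mat (ρ : URep n) (B : Finset (Fin n))
    (h : ∀ v : Fin ρ.dim → ℂ, (∀ C : Finset (Fin n), C = B ∨ C.card = 1 →
      ∀ g ∈ UB C, ρ.mat g *ᵥ v = v) → v = 0) : Dead ρ B := by
  intro v hT hF
  have h1 := h (WithLp.ofLp v) (by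
    intro C hC g hg
    have e : ρ.op g v = WithLp.toLp 2 (ρ.mat g *ᵥ WithLp.ofLp v) := rfl
    have h2 : ρ.op g v = v := by
      rcases hC with rfl | hC
      · exact hF g hg
      · obtain ⟨i, rfl⟩ := Finset.card_eq_one.1 hC
        exact hT i g hg
    rw [e] at h2
    exact congrArg WithLp.ofLp h2)
  have h2 : v = WithLp.toLp 2 (WithLp.ofLp v) := rfl
  rw [h2, h1]
  rfl

theorem final (n : ℕ) (hn : 2 ≤ n) (w : Finset (Fin n) → ℝ) (hw : ∀ B, 0 ≤ w B)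
    (α ρ : URep n) (hα : α.IsAdjoint) (hρ : ρ.Irred) (hnt : ¬ ∀ g : UU n, ρ.mat g = 1)
    (h2 : ¬ IsBose 2 ρ) (b : ℕ) (hb : 2 ≤ b)
    (hB : ∀ B, w B ≠ 0 → B.card ≤ b ∨ n - 1 ≤ B.card ∨
      ∀ v : Fin ρ.dim → ℂ, (∀ C : Finset (Fin n), C = B ∨ C.card = 1 →
        ∀ g ∈ UB C, ρ.mat g *ᵥ v = v) → v = 0)
    (h3 : IsBose 3 ρ → n ≤ 4 ∨ ∀ B, w B ≠ 0 → B.card ≤ b ∨ B = Finset.univ) :
    α.lamMin w ≤ ((b : ℝ) - 1) * ρ.lamMin w := by
  have hone : OneBody w (α.lamMin w) := Pool.Agent.BSE.H59.one n α hα w hw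
  refine fac hn w hw _ hone ρ hρ hnt h2 b hb (fun B hB0 => ?_) (fun h h4 => ?_)
  · rcases hB B hB0 with h | h | h
    · exact Or.inl h
    · right
      left
      omega
    · exact Or.inr (Or.inr (dead_of_mat ρ B h))
  · rcases h3 h with h5 | h5
    · omega
    · exact h5

end Pool.Agent.GRB.H94
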