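import Pool.Agent.Helper47_GRA.Fin
import Pool.Agent.Helper33_UTR.Kit
import Pool.Agent.Helper94_GRB.CUB4

/-!
# Nonspherical representations: blocks which kill the torus invariant vectors (helper94)
-/

open MeasureTheory Matrix Finset
open scoped ComplexConjugate

namespace Pool.Agent.GRB.H94

open Pool.Agent.GRA Pool.Agent.Helper64_FR Pool.Agent.UTR Pool.Agent.BSE
open Pool.Agent.Helper64_FR.FIX Pool.Agent.Helper64_FR.LOW

variable {n : ℕ}

/-- the total weight of the blocks with at least three elements -/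
noncomputable def big (w : Finset (Fin n) → ℝ) : ℝ :=
  ∑ B ∈ Finset.univ.filter (fun B : Finset (Fin n) => 3 ≤ B.card), w B

theorem vb_mono (hn : 0 < n) (B : Finset (Fin n)) (y : Fin n → ℝ) :
    ∑ i, H47.dv B y i ^ 2 ≤ ∑ i, H47.dv Finset.univ y i ^ 2 := by
  have h0 : ∑ i, H47.dv B y i ^ 2 = ∑ i ∈ B, (y i - (∑ j ∈ B, y j) / B.card) ^ 2 :=
    H56.vb_eq B y
  have h1 : ∑ i, H47.dv Finset.univ y i ^ 2 = ∑ i, (y i - (∑ j, y j) / n) ^ 2 := by
    refine Finset.sum_congr rfl fun i _ => ?_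
    rw [H47.dv_of_mem (Finset.mem_univ i), Finset.card_univ, Fintype.card_fin]
  rw [h0, h1]
  generalize (∑ j, y j) / (n : ℝ) = a
  have h2 : ∑ i ∈ B, (y i - (∑ j ∈ B, y j) / B.card) ^ 2 ≤ ∑ i ∈ B, (y i - a) ^ 2 := by
    rcases B.eq_empty_or_nonempty with hB | hB
    · rw [hB]; simp
    · have hc : (0 : ℝ) < B.card := by exact_mod_cast hB.card_pos
      have e1 : ∀ b : ℝ, ∑ i ∈ B, (y i - b) ^ 2 =
          ∑ i ∈ B, y i ^ 2 - 2 * b * ∑ i ∈ B, y i + B.card * b ^ 2 := by
        intro b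
        have : ∀ i, (y i - b) ^ 2 = y i ^ 2 - 2 * b * y i + b ^ 2 := fun i => by ring
        simp only [this, Finset.sum_add_distrib, Finset.sum_sub_distrib, ← Finset.mul_sum,
          Finset.sum_const, nsmul_eq_mul]
      rw [e1, e1]
      generalize ∑ i ∈ B, y i = s
      have e2 : (B.card : ℝ) * (s / B.card) = s := mul_div_cancel₀ s hc.ne'
      generalize s / (B.card : ℝ) = m at e2 ⊢
      subst e2
      nlinarith [mul_nonneg hc.le (sq_nonneg (m - a))]
  refine h2.trans ?_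
  exact Finset.sum_le_sum_of_subset_of_nonneg (Finset.subset_univ B) fun i _ _ => sq_nonneg _

theorem split (w : Finset (Fin n) → ℝ) (F : Finset (Fin n) → ℝ)
    (h1 : ∀ B : Finset (Fin n), B.card ≤ 1 → w B * F B = 0) :
    ∑ B : Finset (Fin n), w B * F B =
      ∑ B ∈ Finset.univ.filter (fun B : Finset (Fin n) => 3 ≤ B.card), w B * F B +
      ∑ B ∈ Finset.univ.filter (fun B : Finset (Fin n) => B.card = 2), w B * F B := by
  rw [← Finset.sum_filter_add_sum_filter_not Finset.univ (fun B : Finset (Fin n) => 3 ≤ B.card)]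
  congr 1
  symm
  apply Finset.sum_subset
  · intro B hB
    simp only [Finset.mem_filter, Finset.mem_univ, true_and] at hB ⊢
    omega
  · intro B hB hB2
    simp only [Finset.mem_filter, Finset.mem_univ, true_and] at hB hB2
    exact h1 B (by omega)

theorem fon' (hn : 3 ≤ n) (w : Finset (Fin n) → ℝ) (hw : ∀ B, 0 ≤ w B) (μ : ℝ)
    (h : OneBody w μ) : OneG (Wp w) Finset.univ (μ - big w) := by
  intro y
  have h1 := h y
  rw [← H56.vb_univ (by omega) y]
  change _ * ∑ i, H47.dv Finset.univ y i ^ 2 ≤ _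
  rw [split w (fun B => ∑ i, H47.dv B y i ^ 2) (fun B hB => by
    have : ∑ i, H47.dv B y i ^ 2 = 0 := H56.vb_small hB y
    simp only [this, mul_zero])] at h1
  have h2 : ∑ B ∈ Finset.univ.filter (fun B : Finset (Fin n) => 3 ≤ B.card),
      w B * ∑ i, H47.dv B y i ^ 2 ≤ big w * ∑ i, H47.dv Finset.univ y i ^ 2 := by
    unfold big
    rw [Finset.sum_mul]
    refine Finset.sum_le_sum fun B _ => ?_
    exact mul_le_mul_of_nonneg_left (vb_mono (by omega) B y) (hw B)
  have h3 := H94.pair_sum (fun B : Finset (Fin n) => w B * ∑ i, H47.dv B y i ^ 2)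
  have h4 : ∑ i : Fin n, ∑ j : Fin n,
      (if i = j then 0 else w {i, j} * ∑ k, H47.dv {i, j} y k ^ 2) =
      1 / 2 * ∑ i, ∑ j, Wp w i j * (y i - y j) ^ 2 := by
    rw [Finset.mul_sum]
    apply Finset.sum_congr rfl
    intro i _
    rw [Finset.mul_sum]
    apply Finset.sum_congr rfl
    intro j _
    unfold Wp
    by_cases h : i = j
    · rw [if_pos h, if_pos h]
      ring
    · rw [if_neg h, if_neg h]
      have : ∑ k, H47.dv {i, j} y k ^ 2 = 1 / 2 * (y i - y j) ^ 2 := H56.vb_pair h y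
      rw [this]
      ring
  rw [h4] at h3
  linarith

/-- The block `B` kills the torus invariant vectors of `ρ`. -/
def Dead (ρ : URep n) (B : Finset (Fin n)) : Prop :=
  ∀ v : ρ.Sp, TInv ρ v → Fx ρ B v → v = 0

theorem P_dead {ρ : URep n} {B : Finset (Fin n)} (h : Dead ρ B) {v : ρ.Sp} (hv : TInv ρ v) :
    ρ.P B v = 0 :=
  h _ (Pool.Agent.UTR.H33.TInv_P B hv) (P_apply_inv ρ B v)

theorem nsb (hn : 3 ≤ n) (w : Finset (Fin n) → ℝ) (hw : ∀ B, 0 ≤ w B) (ρ : URep n)
    (hρ : ρ.Irred) (hNS : NSph ρ) (hd : ∀ B, w B ≠ 0 → B.card ≤ 2 ∨ Dead ρ B) (μ : ℝ)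
    (hone : OneBody w μ) (x : ℝ) (v : ρ.Sp) (hv : TInv ρ v) (hv0 : v ≠ 0)
    (hx : lapOp ρ w v = (x : ℂ) • v) : μ ≤ x := by
  have hpos : 0 < ‖v‖ ^ 2 := by
    have := norm_pos_iff.2 hv0
    positivity
  have e1 := H94.eig_sq ρ w v x hx
  rw [split w (fun B => ‖v - ρ.P B v‖ ^ 2) (fun B hB => by
    simp only [H94.P_small ρ v hv B hB, sub_self, norm_zero]
    ring)] at e1
  have e2 : ∑ B ∈ Finset.univ.filter (fun B : Finset (Fin n) => 3 ≤ B.card),
      w B * ‖v - ρ.P B v‖ ^ 2 = big w * ‖v‖ ^ 2 := by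
    unfold big
    rw [Finset.sum_mul]
    refine Finset.sum_congr rfl fun B hB => ?_
    simp only [Finset.mem_filter, Finset.mem_univ, true_and] at hB
    by_cases h0 : w B = 0
    · rw [h0, zero_mul, zero_mul]
    · rcases hd B h0 with h | h
      · omega
      · rw [P_dead h hv, sub_zero]
  have e3 := H94.pair_sum (fun B : Finset (Fin n) => w B * ‖v - ρ.P B v‖ ^ 2)
  have e4 := Pool.Agent.GRA.H47.fns n hn ρ hρ hNS (Wp w) (fun i j => by
      unfold Wp
      by_cases h : i = j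
      · rw [if_pos h, if_pos h.symm]
      · rw [if_neg h, if_neg (Ne.symm h), Finset.pair_comm])
    (fun i j => by
      unfold Wp
      split_ifs
      · exact le_refl _
      · exact hw _) _ (fon' hn w hw μ hone) v hv
  have e5 : ∑ i : Fin n, ∑ j : Fin n,
      (if i = j then 0 else Wp w i j * ‖v - ρ.P {i, j} v‖ ^ 2) =
      ∑ i : Fin n, ∑ j : Fin n, (if i = j then 0 else w {i, j} * ‖v - ρ.P {i, j} v‖ ^ 2) := by
    refine Finset.sum_congr rfl fun i _ => Finset.sum_congr rfl fun j _ => ?_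
    by_cases h : i = j
    · rw [if_pos h, if_pos h]
    · rw [if_neg h, if_neg h]
      unfold Wp
      rw [if_neg h]
  rw [e5, e3] at e4
  rw [e2] at e1
  have e6 : μ * ‖v‖ ^ 2 ≤ x * ‖v‖ ^ 2 := by
    rw [e1]
    linarith
  exact le_of_mul_le_mul_right e6 hpos

/-- `n - 1` points -/
theorem dead_of_nsph {ρ : URep n} (hρ : ρ.Irred) (hN : NTr ρ) (hNS : NSph ρ)
    {B : Finset (Fin n)} (hB : n - 1 ≤ B.card) : Dead ρ B := by
  intro v hv hF
  by_cases hu : B = Finset.univ
  · subst hu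
    have h1 := P_inv ρ Finset.univ v hF
    rw [H94.P_univ_zero' ρ hρ hN] at h1
    exact h1.symm
  · obtain ⟨l, hl⟩ : ∃ l, l ∉ B := by
      by_contra h
      push Not at h
      exact hu (Finset.eq_univ_iff_forall.2 h)
    have h2 : B ⊆ Finset.univ.erase l := fun i hi =>
      Finset.mem_erase.2 ⟨fun h => hl (h ▸ hi), Finset.mem_univ _⟩
    have h3 : B = Finset.univ.erase l := by
      apply Finset.eq_of_subset_of_card_le h2
      rw [Finset.card_erase_of_mem (Finset.mem_univ _), Finset.card_univ, Fintype.card_fin]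
      exact hB
    rw [h3] at hF
    exact hNS l v hF (hv l)

end Pool.Agent.GRB.H94
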