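import Pool.Agent.Helper61_BSE.CUB

/-!
# Level 3 on four points: the certificate for pairs and triples (helper94)
-/

open Finset

namespace Pool.Agent.GRB.H94

open Pool.Agent.BSE Pool.Agent.BSE.H61

/-- the certificate on four points, as a quadratic form of the differences -/
noncomputable def k4 (F : Fin 4 → Fin 4 → Fin 4 → ℝ) (p q : Fin 4) : ℝ :=
  (31 / 50) * (∑ k, (cf F p k k - cf F q k k) ^ 2) +
    (3 / 20) * (∑ k, ∑ l, if k = l then 0 else (cf F p k l - cf F q k l) ^ 2) +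
    (2 / 25) * (∑ k, (∑ l, if k = l then 0 else (cf F p k l - cf F q k l)) ^ 2) +
    (1 / 3) * (F p p p - F q q q) ^ 2

theorem four (p q : Fin 4) (h : p ≠ q) : ∃ k l : Fin 4, k ≠ p ∧ k ≠ q ∧ l ≠ p ∧ l ≠ q ∧ k ≠ l ∧
    univ = ({p, q, k, l} : Finset (Fin 4)) ∧ RR p q = ({k, l} : Finset (Fin 4)) := by
  revert p q
  unfold RR
  decide

section
variable {F : Fin 4 → Fin 4 → Fin 4 → ℝ}

theorem cf_s1 (hS : Sym3 F) (i j k : Fin 4) : cf F i j k = cf F j i k := by
  unfold cf
  rw [m3_swap1, hS.1]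

theorem cf_s2 (hS : Sym3 F) (i j k : Fin 4) : cf F i j k = cf F i k j := by
  unfold cf
  rw [m3_swap2, hS.2]

theorem cf_aaa (a : Fin 4) : cf F a a a = F a a a := by
  unfold cf
  rw [m3_ppp, one_mul]

theorem cf_aab {a b : Fin 4} (h : a ≠ b) : cf F a a b = 3 * F a a b := by
  unfold cf
  rw [m3_ppq h]

theorem cf_abb {a b : Fin 4} (h : a ≠ b) : cf F a b b = 3 * F a b b := by
  unfold cf
  rw [m3_pqq h]

theorem cf_abc {a b c : Fin 4} (h : a ≠ b) (h1 : c ≠ a) (h2 : c ≠ b) :
    cf F a b c = 6 * F a b c := by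
  unfold cf
  rw [m3_pqk h h1 h2]

/-- all entries in terms of ten entries -/
structure Ent (F : Fin 4 → Fin 4 → Fin 4 → ℝ) (p q k l : Fin 4) : Prop where
  pq : p ≠ q
  pk : p ≠ k
  pl : p ≠ l
  qk : q ≠ k
  ql : q ≠ l
  kl : k ≠ l
  uni : ∀ g : Fin 4 → ℝ, ∑ i, g i = g p + g q + g k + g l

  eppp : F p p p = -F p p q - F p p k - F p p l
  epqq : F p q q = -F p q k - F p q l - F p p q
  epkk : F p k k = -F p q k - F p k l - F p p k
  epll : F p l l = -F p q l - F p k l - F p p l
  eqqq : F q q q = F p q k + F p q l + F p p q - F q q k - F q q l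
  eqkk : F q k k = -F p q k - F q k l - F q q k
  eqll : F q l l = -F p q l - F q k l - F q q l
  ekkk : F k k k = 2 * F p q k + F p k l + F q k l + F p p k + F q q k - F k k l
  ekll : F k l l = -F p k l - F q k l - F k k l
  elll : F l l l = 2 * F p q l + 2 * F p k l + 2 * F q k l + F p p l + F q q l + F k k l
  spqp : F p q p = F p p q
  spkp : F p k p = F p p k
  spkq : F p k q = F p q k
  splp : F p l p = F p p l
  splq : F p l q = F p q l
  splk : F p l k = F p k l
  sqpp : F q p p = F p p q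
  sqpq : F q p q = F p q q
  sqpk : F q p k = F p q k
  sqpl : F q p l = F p q l
  sqqp : F q q p = F p q q
  sqkp : F q k p = F p q k
  sqkq : F q k q = F q q k
  sqlp : F q l p = F p q l
  sqlq : F q l q = F q q l
  sqlk : F q l k = F q k l
  skpp : F k p p = F p p k
  skpq : F k p q = F p q k
  skpk : F k p k = F p k k
  skpl : F k p l = F p k l
  skqp : F k q p = F p q k
  skqq : F k q q = F q q k
  skqk : F k q k = F q k k
  skql : F k q l = F q k l
  skkp : F k k p = F p k k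
  skkq : F k k q = F q k k
  sklp : F k l p = F p k l
  sklq : F k l q = F q k l
  sklk : F k l k = F k k l
  slpp : F l p p = F p p l
  slpq : F l p q = F p q l
  slpk : F l p k = F p k l
  slpl : F l p l = F p l l
  slqp : F l q p = F p q l
  slqq : F l q q = F q q l
  slqk : F l q k = F q k l
  slql : F l q l = F q l l
  slkp : F l k p = F p k l
  slkq : F l k q = F q k l
  slkk : F l k k = F k k l
  slkl : F l k l = F k l l
  sllp : F l l p = F p l l
  sllq : F l l q = F q l l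
  sllk : F l l k = F k l l

theorem ent (hS : Sym3 F) (hT : Tin3 F) {p q k l : Fin 4} (hpq : p ≠ q) (hkp : k ≠ p)
    (hkq : k ≠ q) (hlp : l ≠ p) (hlq : l ≠ q) (hkl : k ≠ l)
    (hu : univ = ({p, q, k, l} : Finset (Fin 4))) : Ent F p q k l := by
  have hsum : ∀ g : Fin 4 → ℝ, ∑ i, g i = g p + g q + g k + g l := by
    intro g
    rw [hu, sum_insert, sum_insert, sum_insert, sum_singleton]
    · ring
    · simpa using hkl
    · simp only [mem_insert, mem_singleton, not_or]
      exact ⟨Ne.symm hkq, Ne.symm hlq⟩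
    · simp only [mem_insert, mem_singleton, not_or]
      exact ⟨hpq, Ne.symm hkp, Ne.symm hlp⟩
  have spqp : F p q p = F p p q := hS.2 p q p
  have spkp : F p k p = F p p k := hS.2 p k p
  have spkq : F p k q = F p q k := hS.2 p k q
  have splp : F p l p = F p p l := hS.2 p l p
  have splq : F p l q = F p q l := hS.2 p l q
  have splk : F p l k = F p k l := hS.2 p l k
  have sqpp : F q p p = F p p q := (hS.1 q p p).trans (hS.2 p q p)
  have sqpq : F q p q = F p q q := hS.1 q p q
  have sqpk : F q p k = F p q k := hS.1 q p k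
  have sqpl : F q p l = F p q l := hS.1 q p l
  have sqqp : F q q p = F p q q := (hS.2 q q p).trans (hS.1 q p q)
  have sqkp : F q k p = F p q k := (hS.2 q k p).trans (hS.1 q p k)
  have sqkq : F q k q = F q q k := hS.2 q k q
  have sqlp : F q l p = F p q l := (hS.2 q l p).trans (hS.1 q p l)
  have sqlq : F q l q = F q q l := hS.2 q l q
  have sqlk : F q l k = F q k l := hS.2 q l k
  have skpp : F k p p = F p p k := (hS.1 k p p).trans (hS.2 p k p)
  have skpq : F k p q = F p q k := (hS.1 k p q).trans (hS.2 p k q)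
  have skpk : F k p k = F p k k := hS.1 k p k
  have skpl : F k p l = F p k l := hS.1 k p l
  have skqp : F k q p = F p q k := ((hS.1 k q p).trans (hS.2 q k p)).trans (hS.1 q p k)
  have skqq : F k q q = F q q k := (hS.1 k q q).trans (hS.2 q k q)
  have skqk : F k q k = F q k k := hS.1 k q k
  have skql : F k q l = F q k l := hS.1 k q l
  have skkp : F k k p = F p k k := (hS.2 k k p).trans (hS.1 k p k)
  have skkq : F k k q = F q k k := (hS.2 k k q).trans (hS.1 k q k)
  have sklp : F k l p = F p k l := (hS.2 k l p).trans (hS.1 k p l)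
  have sklq : F k l q = F q k l := (hS.2 k l q).trans (hS.1 k q l)
  have sklk : F k l k = F k k l := hS.2 k l k
  have slpp : F l p p = F p p l := (hS.1 l p p).trans (hS.2 p l p)
  have slpq : F l p q = F p q l := (hS.1 l p q).trans (hS.2 p l q)
  have slpk : F l p k = F p k l := (hS.1 l p k).trans (hS.2 p l k)
  have slpl : F l p l = F p l l := hS.1 l p l
  have slqp : F l q p = F p q l := ((hS.1 l q p).trans (hS.2 q l p)).trans (hS.1 q p l)
  have slqq : F l q q = F q q l := (hS.1 l q q).trans (hS.2 q l q)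
  have slqk : F l q k = F q k l := (hS.1 l q k).trans (hS.2 q l k)
  have slql : F l q l = F q l l := hS.1 l q l
  have slkp : F l k p = F p k l := ((hS.1 l k p).trans (hS.2 k l p)).trans (hS.1 k p l)
  have slkq : F l k q = F q k l := ((hS.1 l k q).trans (hS.2 k l q)).trans (hS.1 k q l)
  have slkk : F l k k = F k k l := (hS.1 l k k).trans (hS.2 k l k)
  have slkl : F l k l = F k l l := hS.1 l k l
  have sllp : F l l p = F p l l := (hS.2 l l p).trans (hS.1 l p l)
  have sllq : F l l q = F q l l := (hS.2 l l q).trans (hS.1 l q l)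
  have sllk : F l l k = F k l l := (hS.2 l l k).trans (hS.1 l k l)
  have tpp : F p p p + F q p p + F k p p + F l p p = 0 := by
    rw [← hsum (fun i => F i p p)]
    exact hT p p
  rw [sqpp, skpp, slpp] at tpp
  have tpq : F p p q + F q p q + F k p q + F l p q = 0 := by
    rw [← hsum (fun i => F i p q)]
    exact hT p q
  rw [sqpq, skpq, slpq] at tpq
  have tpk : F p p k + F q p k + F k p k + F l p k = 0 := by
    rw [← hsum (fun i => F i p k)]
    exact hT p k
  rw [sqpk, skpk, slpk] at tpk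
  have tpl : F p p l + F q p l + F k p l + F l p l = 0 := by
    rw [← hsum (fun i => F i p l)]
    exact hT p l
  rw [sqpl, skpl, slpl] at tpl
  have tqq : F p q q + F q q q + F k q q + F l q q = 0 := by
    rw [← hsum (fun i => F i q q)]
    exact hT q q
  rw [skqq, slqq] at tqq
  have tqk : F p q k + F q q k + F k q k + F l q k = 0 := by
    rw [← hsum (fun i => F i q k)]
    exact hT q k
  rw [skqk, slqk] at tqk
  have tql : F p q l + F q q l + F k q l + F l q l = 0 := by
    rw [← hsum (fun i => F i q l)]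
    exact hT q l
  rw [skql, slql] at tql
  have tkk : F p k k + F q k k + F k k k + F l k k = 0 := by
    rw [← hsum (fun i => F i k k)]
    exact hT k k
  rw [slkk] at tkk
  have tkl : F p k l + F q k l + F k k l + F l k l = 0 := by
    rw [← hsum (fun i => F i k l)]
    exact hT k l
  rw [slkl] at tkl
  have tll : F p l l + F q l l + F k l l + F l l l = 0 := by
    rw [← hsum (fun i => F i l l)]
    exact hT l l
  have eppp : F p p p = -F p p q - F p p k - F p p l := by
    linarith [tpp, tpq, tpk, tpl, tqq, tqk, tql, tkk, tkl, tll]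
  have epqq : F p q q = -F p q k - F p q l - F p p q := by
    linarith [tpp, tpq, tpk, tpl, tqq, tqk, tql, tkk, tkl, tll]
  have epkk : F p k k = -F p q k - F p k l - F p p k := by
    linarith [tpp, tpq, tpk, tpl, tqq, tqk, tql, tkk, tkl, tll]
  have epll : F p l l = -F p q l - F p k l - F p p l := by
    linarith [tpp, tpq, tpk, tpl, tqq, tqk, tql, tkk, tkl, tll]
  have eqqq : F q q q = F p q k + F p q l + F p p q - F q q k - F q q l := by
    linarith [tpp, tpq, tpk, tpl, tqq, tqk, tql, tkk, tkl, tll]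
  have eqkk : F q k k = -F p q k - F q k l - F q q k := by
    linarith [tpp, tpq, tpk, tpl, tqq, tqk, tql, tkk, tkl, tll]
  have eqll : F q l l = -F p q l - F q k l - F q q l := by
    linarith [tpp, tpq, tpk, tpl, tqq, tqk, tql, tkk, tkl, tll]
  have ekkk : F k k k = 2 * F p q k + F p k l + F q k l + F p p k + F q q k - F k k l := by
    linarith [tpp, tpq, tpk, tpl, tqq, tqk, tql, tkk, tkl, tll]
  have ekll : F k l l = -F p k l - F q k l - F k k l := by
    linarith [tpp, tpq, tpk, tpl, tqq, tqk, tql, tkk, tkl, tll]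
  have elll : F l l l = 2 * F p q l + 2 * F p k l + 2 * F q k l + F p p l + F q q l + F k k l := by
    linarith [tpp, tpq, tpk, tpl, tqq, tqk, tql, tkk, tkl, tll]
  exact ⟨hpq, Ne.symm hkp, Ne.symm hlp, Ne.symm hkq, Ne.symm hlq, hkl, hsum,
    eppp, epqq, epkk, epll, eqqq, eqkk, eqll, ekkk, ekll, elll, spqp, spkp, spkq, splp, splq,
    splk, sqpp, sqpq, sqpk, sqpl, sqqp, sqkp, sqkq, sqlp, sqlq, sqlk, skpp, skpq, skpk, skpl,
    skqp, skqq, skqk, skql, skkp, skkq, sklp, sklq, sklk, slpp, slpq, slpk, slpl, slqp, slqq,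
    slqk, slql, slkp, slkq, slkk, slkl, sllp, sllq, sllk⟩

end

section
variable {F : Fin 4 → Fin 4 → Fin 4 → ℝ}

theorem k4_eq (hS : Sym3 F) {p q k l : Fin 4} (pq : p ≠ q) (pk : p ≠ k) (pl : p ≠ l)
    (qk : q ≠ k) (ql : q ≠ l) (kl : k ≠ l)
    (hsum : ∀ g : Fin 4 → ℝ, ∑ i, g i = g p + g q + g k + g l) :
    k4 F p q = (31 / 50) * ((F p p p - 3 * F p p q) ^ 2 + (3 * F p q q - F q q q) ^ 2 +
        (3 * F p k k - 3 * F q k k) ^ 2 + (3 * F p l l - 3 * F q l l) ^ 2) +
      (3 / 20) * (2 * ((3 * F p p q - 3 * F p q q) ^ 2 + (3 * F p p k - 6 * F p q k) ^ 2 +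
        (3 * F p p l - 6 * F p q l) ^ 2 + (6 * F p q k - 3 * F q q k) ^ 2 +
        (6 * F p q l - 3 * F q q l) ^ 2 + (6 * F p k l - 6 * F q k l) ^ 2)) +
      (2 / 25) * (((3 * F p p q - 3 * F p q q) + (3 * F p p k - 6 * F p q k) +
          (3 * F p p l - 6 * F p q l)) ^ 2 +
        ((3 * F p p q - 3 * F p q q) + (6 * F p q k - 3 * F q q k) +
          (6 * F p q l - 3 * F q q l)) ^ 2 +
        ((3 * F p p k - 6 * F p q k) + (6 * F p q k - 3 * F q q k) +
          (6 * F p k l - 6 * F q k l)) ^ 2 +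
        ((3 * F p p l - 6 * F p q l) + (6 * F p q l - 3 * F q q l) +
          (6 * F p k l - 6 * F q k l)) ^ 2) +
      (1 / 3) * (F p p p - F q q q) ^ 2 := by
  unfold k4
  simp only [hsum, if_true, if_false, pq, pk, pl, qk, ql, kl, pq.symm, pk.symm,
    pl.symm, qk.symm, ql.symm, kl.symm]
  have cppp : cf F p p p = F p p p :=
    cf_aaa p
  have cppq : cf F p p q = 3 * F p p q :=
    cf_aab pq
  have cppk : cf F p p k = 3 * F p p k :=
    cf_aab pk
  have cppl : cf F p p l = 3 * F p p l :=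
    cf_aab pl
  have cpqp : cf F p q p = 3 * F p p q :=
    (cf_s2 hS p q p).trans (cf_aab pq)
  have cpqq : cf F p q q = 3 * F p q q :=
    cf_abb pq
  have cpqk : cf F p q k = 6 * F p q k :=
    cf_abc pq pk.symm qk.symm
  have cpql : cf F p q l = 6 * F p q l :=
    cf_abc pq pl.symm ql.symm
  have cpkp : cf F p k p = 3 * F p p k :=
    (cf_s2 hS p k p).trans (cf_aab pk)
  have cpkq : cf F p k q = 6 * F p q k :=
    (cf_s2 hS p k q).trans (cf_abc pq pk.symm qk.symm)
  have cpkk : cf F p k k = 3 * F p k k :=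
    cf_abb pk
  have cpkl : cf F p k l = 6 * F p k l :=
    cf_abc pk pl.symm kl.symm
  have cplp : cf F p l p = 3 * F p p l :=
    (cf_s2 hS p l p).trans (cf_aab pl)
  have cplq : cf F p l q = 6 * F p q l :=
    (cf_s2 hS p l q).trans (cf_abc pq pl.symm ql.symm)
  have cplk : cf F p l k = 6 * F p k l :=
    (cf_s2 hS p l k).trans (cf_abc pk pl.symm kl.symm)
  have cpll : cf F p l l = 3 * F p l l :=
    cf_abb pl
  have cqpp : cf F q p p = 3 * F p p q :=
    ((cf_s1 hS q p p).trans (cf_s2 hS p q p)).trans (cf_aab pq)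
  have cqpq : cf F q p q = 3 * F p q q :=
    (cf_s1 hS q p q).trans (cf_abb pq)
  have cqpk : cf F q p k = 6 * F p q k :=
    (cf_s1 hS q p k).trans (cf_abc pq pk.symm qk.symm)
  have cqpl : cf F q p l = 6 * F p q l :=
    (cf_s1 hS q p l).trans (cf_abc pq pl.symm ql.symm)
  have cqqp : cf F q q p = 3 * F p q q :=
    ((cf_s2 hS q q p).trans (cf_s1 hS q p q)).trans (cf_abb pq)
  have cqqq : cf F q q q = F q q q :=
    cf_aaa q
  have cqqk : cf F q q k = 3 * F q q k :=
    cf_aab qk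
  have cqql : cf F q q l = 3 * F q q l :=
    cf_aab ql
  have cqkp : cf F q k p = 6 * F p q k :=
    ((cf_s2 hS q k p).trans (cf_s1 hS q p k)).trans (cf_abc pq pk.symm qk.symm)
  have cqkq : cf F q k q = 3 * F q q k :=
    (cf_s2 hS q k q).trans (cf_aab qk)
  have cqkk : cf F q k k = 3 * F q k k :=
    cf_abb qk
  have cqkl : cf F q k l = 6 * F q k l :=
    cf_abc qk ql.symm kl.symm
  have cqlp : cf F q l p = 6 * F p q l :=
    ((cf_s2 hS q l p).trans (cf_s1 hS q p l)).trans (cf_abc pq pl.symm ql.symm)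
  have cqlq : cf F q l q = 3 * F q q l :=
    (cf_s2 hS q l q).trans (cf_aab ql)
  have cqlk : cf F q l k = 6 * F q k l :=
    (cf_s2 hS q l k).trans (cf_abc qk ql.symm kl.symm)
  have cqll : cf F q l l = 3 * F q l l :=
    cf_abb ql
  simp only [cppp, cppq, cppk, cppl, cpqp, cpqq, cpqk, cpql,
    cpkp, cpkq, cpkk, cpkl, cplp, cplq, cplk, cpll,
    cqpp, cqpq, cqpk, cqpl, cqqp, cqqq, cqqk, cqql,
    cqkp, cqkq, cqkk, cqkl, cqlp, cqlq, cqlk, cqll]
  ring

theorem ip3_eq (hS : Sym3 F) {p q k l : Fin 4} (pq : p ≠ q) (pk : p ≠ k) (pl : p ≠ l)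
    (qk : q ≠ k) (ql : q ≠ l) (kl : k ≠ l)
    (hsum : ∀ g : Fin 4 → ℝ, ∑ i, g i = g p + g q + g k + g l) (G : Fin 4 → Fin 4 → Fin 4 → ℝ)
    (hG : Sym3 G) :
    ip3 F G = F p p p * G p p p + F q q q * G q q q + F k k k * G k k k + F l l l * G l l l +
      9 * (F p p q * G p p q + F p q q * G p q q + F p p k * G p p k + F p k k * G p k k +
        F p p l * G p p l + F p l l * G p l l + F q q k * G q q k + F q k k * G q k k +
        F q q l * G q q l + F q l l * G q l l + F k k l * G k k l + F k l l * G k l l) +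
      36 * (F p q k * G p q k + F p q l * G p q l + F p k l * G p k l + F q k l * G q k l) := by
  have hh1 : ∀ i j k, m3 i j k * (F i j k * G i j k) = m3 j i k * (F j i k * G j i k) :=
    fun i j k => by rw [m3_swap1 i j k, hS.1 i j k, hG.1 i j k]
  have hh2 : ∀ i j k, m3 i j k * (F i j k * G i j k) = m3 i k j * (F i k j * G i k j) :=
    fun i j k => by rw [m3_swap2 i j k, hS.2 i j k, hG.2 i j k]
  have hRR : ∀ g : Fin 4 → ℝ, ∑ i ∈ RR p q, g i = g k + g l := by
    intro g
    have h1 := split1 pq g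
    rw [hsum g] at h1
    linarith
  unfold ip3
  rw [split3 pq _ hh1 hh2]
  simp only [hRR]
  have a1 : m3 k l k = 3 := by rw [m3_swap2, m3_ppq kl]
  have a2 : m3 l k k = 3 := m3_pqq kl.symm
  have a3 : m3 l k l = 3 := by rw [m3_swap1, m3_pqq kl]
  have a4 : m3 l l k = 3 := m3_ppq kl.symm
  have b1 : F l k k = F k k l := (hS.1 l k k).trans (hS.2 k l k)
  have b2 : G l k k = G k k l := (hG.1 l k k).trans (hG.2 k l k)
  have b3 : F l l k = F k l l := (hS.2 l l k).trans (hS.1 l k l)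
  have b4 : G l l k = G k l l := (hG.2 l l k).trans (hG.1 l k l)
  simp only [m3_ppp, m3_ppq pq, m3_pqq pq, m3_ppq pk, m3_ppq pl, m3_ppq qk,
    m3_ppq ql, m3_pqk pq pk.symm qk.symm, m3_pqk pq pl.symm ql.symm, m3_pqq pk, m3_pqq pl,
    m3_pqq qk, m3_pqq ql, m3_pqk pk pl.symm kl.symm, m3_pqk pl pk.symm kl,
    m3_pqk qk ql.symm kl.symm, m3_pqk ql qk.symm kl, m3_ppq kl, m3_pqq kl, a1, a2, a3, a4,
    hS.2 p l k, hG.2 p l k, hS.2 q l k, hG.2 q l k, hS.2 k l k, hG.2 k l k, b1, b2,
    hS.1 l k l, hG.1 l k l, b3, b4]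
  ring

end

section
variable {F : Fin 4 → Fin 4 → Fin 4 → ℝ}

/-- the pair inequality -/
theorem q4 (hS : Sym3 F) (hT : Tin3 F) {p q : Fin 4} (hpq : p ≠ q) :
    k4 F p q ≤ 2 * (ip3 F F - ip3 F (PT p q F)) := by
  obtain ⟨k, l, hkp, hkq, hlp, hlq, hkl, hu, -⟩ := four p q hpq
  have E := ent hS hT hpq hkp hkq hlp hlq hkl hu
  rw [k4_eq hS E.pq E.pk E.pl E.qk E.ql E.kl E.uni,
    ip3_eq hS E.pq E.pk E.pl E.qk E.ql E.kl E.uni F hS,
    ip3_eq hS E.pq E.pk E.pl E.qk E.ql E.kl E.uni (PT p q F) (PT_sym p q F hS),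
    pt_ppp, pt_ppq F hpq, pt_pqq F hpq, pt_qqq F hpq, pt_ppk F hpq hkp hkq,
    pt_ppk F hpq hlp hlq, pt_pqk F hpq hkp hkq, pt_pqk F hpq hlp hlq, pt_qqk F hpq hkp hkq,
    pt_qqk F hpq hlp hlq, pt_pkl F hpq hkp hkq hkp hkq, pt_pkl F hpq hlp hlq hlp hlq,
    pt_qkl F hpq hkp hkq hkp hkq, pt_qkl F hpq hlp hlq hlp hlq,
    pt_pkl F hpq hkp hkq hlp hlq, pt_qkl F hpq hkp hkq hlp hlq,
    pt_jkl F hkp hkq hkp hkq hkp hkq, pt_jkl F hlp hlq hlp hlq hlp hlq,
    pt_jkl F hkp hkq hkp hkq hlp hlq, pt_jkl F hkp hkq hlp hlq hlp hlq]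
  unfold S8
  rw [E.spqp, E.sqpp, E.sqpq, E.sqqp, E.sqpk, E.sqpl]
  rw [E.eppp, E.epqq, E.epkk, E.epll, E.eqqq, E.eqkk,
    E.eqll, E.ekkk, E.ekll, E.elll]
  have h : (0 : ℝ) ≤
      (1 / 545550) * (3637 * F p q k - 323 * F p q l + 170 * F p p q - 1082 * F p p k
        - 92 * F p p l - 694 * F q q k + 296 * F q q l) ^ 2 +
      (33 / 241060360) * (13256 * F p q l + 680 * F p p q - 691 * F p p k - 4005 * F p p l
        + 861 * F q q k - 2453 * F q q l) ^ 2 +
      (9 / 7300) * (146 * F p k l - 146 * F q k l + 11 * F p p k + 11 * F p p l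
        - 11 * F q q k - 11 * F q q l) ^ 2 +
      (131 / 28169000) * (680 * F p p q - 691 * F p p k - 691 * F p p l + 861 * F q q k
        + 861 * F q q l) ^ 2 +
      (9 / 309968913500) * (499547 * F p p k - 214028 * F p p l - 499547 * F q q k
        + 214028 * F q q l) ^ 2 +
      (59102433 / 9990940) * (F p p l - F q q l) ^ 2 := by
    positivity
  linarith

/-- the inequality for the triple `{p, q, k}` -/
theorem b4 (hS : Sym3 F) {p q k l : Fin 4} (E : Ent F p q k l) :
    (1 / 3) * (k4 F p q + k4 F p k + k4 F q k) ≤ ip3 F F - (28 / 5) * F l l l ^ 2 := by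
  rw [k4_eq (p := p) (q := q) (k := k) (l := l) hS E.pq E.pk E.pl E.qk E.ql E.kl E.uni,
    k4_eq (p := p) (q := k) (k := q) (l := l) hS E.pk E.pq E.pl E.qk.symm E.kl E.ql (fun g => by rw [E.uni g]; ring),
    k4_eq (p := q) (q := k) (k := p) (l := l) hS E.qk E.pq.symm E.ql E.pk.symm E.kl E.pl (fun g => by rw [E.uni g]; ring),
    ip3_eq hS E.pq E.pk E.pl E.qk E.ql E.kl E.uni F hS]
  simp only [E.spqp, E.spkp, E.spkq, E.splp, E.splq, E.splk, E.sqpp, E.sqpq, E.sqpk, E.sqpl,
    E.sqqp, E.sqkp, E.sqkq, E.sqlp, E.sqlq, E.sqlk, E.skpp, E.skpq, E.skpk, E.skpl, E.skqp,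
    E.skqq, E.skqk, E.skql, E.skkp, E.skkq, E.sklp, E.sklq, E.sklk, E.slpp, E.slpq, E.slpk,
    E.slpl, E.slqp, E.slqq, E.slqk, E.slql, E.slkp, E.slkq, E.slkk, E.slkl, E.sllp, E.sllq, E.sllk]
  rw [E.eppp, E.epqq, E.epkk, E.epll, E.eqqq, E.eqkk,
    E.eqll, E.ekkk, E.ekll, E.elll]
  have h : (0 : ℝ) ≤
      (1 / 8650) * (346 * F p q k - 350 * F p q l - 327 * F p k l - 327 * F q k l
        + 23 * F p p q + 46 * F p p k + 22 * F p p l + 23 * F q q k + 185 * F q q l
        + 348 * F k k l) ^ 2 +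
      (1 / 12085018800) * (931408 * F p q l - 376334 * F p k l - 376334 * F q k l
        + 24012 * F p p q + 24150 * F p p k - 36025 * F p p l + 138 * F q q k
        + 134147 * F q q l - 177832 * F k k l) ^ 2 +
      (9 / 931766941358000) * (80030830 * F p k l - 50366290 * F q k l + 2092080 * F p p q
        + 4412550 * F p p k - 5118641 * F p p l + 2320470 * F q q k - 21494329 * F q q l
        + 13545720 * F k k l) ^ 2 +
      (9 / 18465049227086000) * (276869040 * F q k l + 19526080 * F p p q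
        + 41183800 * F p p k - 226509503 * F p p l + 21657720 * F q q k - 21878217 * F q q l
        + 126426720 * F k k l) ^ 2 +
      (3 / 136074046631000) * (8256770 * F p p q + 1475450 * F p p k - 23334771 * F p p l
        - 6781320 * F q q k + 35180599 * F q q l - 11255648 * F k k l) ^ 2 +
      (27 / 2311895600) * (6440 * F p p k - 13841 * F p p l + 6440 * F q q k
        - 13841 * F q q l + 30258 * F k k l) ^ 2 +
      (325299 / 322000) * (2 * F p p l - F q q l - F k k l) ^ 2 +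
      (975897 / 322000) * (F q q l - F k k l) ^ 2 := by
    positivity
  linarith

theorem k4_self (p : Fin 4) : k4 F p p = 0 := by
  unfold k4
  simp

theorem k4_comm (p q : Fin 4) : k4 F p q = k4 F q p := by
  unfold k4
  have h1 : ∀ k, (cf F p k k - cf F q k k) ^ 2 = (cf F q k k - cf F p k k) ^ 2 := fun k => by ring
  have h2 : ∀ k l, (cf F p k l - cf F q k l) ^ 2 = (cf F q k l - cf F p k l) ^ 2 :=
    fun k l => by ring
  have h3 : ∀ k, (∑ l, if k = l then 0 else (cf F p k l - cf F q k l)) ^ 2 =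
      (∑ l, if k = l then 0 else (cf F q k l - cf F p k l)) ^ 2 := by
    intro k
    have h4 : (∑ l, if k = l then 0 else (cf F q k l - cf F p k l)) =
        -(∑ l, if k = l then 0 else (cf F p k l - cf F q k l)) := by
      rw [← sum_neg_distrib]
      refine sum_congr rfl fun l _ => ?_
      split_ifs
      · simp
      · ring
    rw [h4, neg_sq]
  simp only [h1, h2, h3]
  ring

/-- the total inequality -/
theorem t4 (hS : Sym3 F) (hT : Tin3 F) : 8 * ip3 F F ≤ ∑ p, ∑ q, k4 F p q := by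
  obtain ⟨p, q, hpq⟩ : ∃ p q : Fin 4, p ≠ q := ⟨0, 1, by decide⟩
  obtain ⟨k, l, hkp, hkq, hlp, hlq, hkl, hu, -⟩ := four p q hpq
  have E := ent hS hT hpq hkp hkq hlp hlq hkl hu
  have e : ∑ p, ∑ q, k4 F p q = 2 * (k4 F p q + k4 F p k + k4 F p l + k4 F q k + k4 F q l +
      k4 F k l) := by
    rw [E.uni, E.uni, E.uni, E.uni, E.uni, k4_self, k4_self, k4_self, k4_self, k4_comm q p,
      k4_comm k p, k4_comm k q, k4_comm l p, k4_comm l q, k4_comm l k]
    ring
  rw [e]
  rw [k4_eq (p := p) (q := q) (k := k) (l := l) hS E.pq E.pk E.pl E.qk E.ql E.kl E.uni,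
    k4_eq (p := p) (q := k) (k := q) (l := l) hS E.pk E.pq E.pl E.qk.symm E.kl E.ql (fun g => by rw [E.uni g]; ring),
    k4_eq (p := p) (q := l) (k := q) (l := k) hS E.pl E.pq E.pk E.ql.symm E.kl.symm E.qk (fun g => by rw [E.uni g]; ring),
    k4_eq (p := q) (q := k) (k := p) (l := l) hS E.qk E.pq.symm E.ql E.pk.symm E.kl E.pl (fun g => by rw [E.uni g]; ring),
    k4_eq (p := q) (q := l) (k := p) (l := k) hS E.ql E.pq.symm E.qk E.pl.symm E.kl.symm E.pk (fun g => by rw [E.uni g]; ring),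
    k4_eq (p := k) (q := l) (k := p) (l := q) hS E.kl E.pk.symm E.qk.symm E.pl.symm E.ql.symm E.pq (fun g => by rw [E.uni g]; ring),
    ip3_eq hS E.pq E.pk E.pl E.qk E.ql E.kl E.uni F hS]
  simp only [E.spqp, E.spkp, E.spkq, E.splp, E.splq, E.splk, E.sqpp, E.sqpq, E.sqpk, E.sqpl,
    E.sqqp, E.sqkp, E.sqkq, E.sqlp, E.sqlq, E.sqlk, E.skpp, E.skpq, E.skpk, E.skpl, E.skqp,
    E.skqq, E.skqk, E.skql, E.skkp, E.skkq, E.sklp, E.sklq, E.sklk, E.slpp, E.slpq, E.slpk,
    E.slpl, E.slqp, E.slqq, E.slqk, E.slql, E.slkp, E.slkq, E.slkk, E.slkl, E.sllp, E.sllq, E.sllk]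
  rw [E.eppp, E.epqq, E.epkk, E.epll, E.eqqq, E.eqkk,
    E.eqll, E.ekkk, E.ekll, E.elll]
  have h : (0 : ℝ) ≤
      (1 / 16725) * (223 * F p q k + 41 * F p q l + 73 * F p k l + 73 * F q k l
        + 32 * F p p q + 64 * F p p k + 32 * F q q k - 32 * F q q l - 64 * F k k l) ^ 2 +
      (1 / 200900700) * (24024 * F p q l + 13779 * F p k l + 13779 * F q k l + 2912 * F p p q
        - 1312 * F p p k + 7136 * F p p l - 4224 * F q q k + 4224 * F q q l
        + 8448 * F k k l) ^ 2 +
      (1 / 154177323300) * (513411 * F p k l + 297195 * F q k l - 101920 * F p p q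
        + 71264 * F p p k + 109280 * F p p l + 173184 * F q q k + 211200 * F q q l
        + 38016 * F k k l) ^ 2 +
      (4 / 578019495925) * (405303 * F q k l - 50960 * F p p q + 35632 * F p p k
        + 54640 * F p p l + 86592 * F q q k + 105600 * F q q l + 19008 * F k k l) ^ 2 +
      (16 / 118453179275) * (70142 * F p p q + 40415 * F p p k + 43775 * F p p l
        - 29727 * F q q k - 26367 * F q q l + 3360 * F k k l) ^ 2 +
      (48 / 600590875) * (2055 * F p p k + 1037 * F p p l + 2055 * F q q k + 1037 * F q q l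
        - 1018 * F k k l) ^ 2 +
      (2688 / 17125) * (F p p l + F q q l + F k k l) ^ 2 := by
    positivity
  linarith

end

end Pool.Agent.GRB.H94
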