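import Pool.Agent.Helper94_GRB.R4
import Pool.Agent.BSE.Stmts5
import Pool.Agent.Helper65_BSE.OSC

/-!
# Level 3 on four points: the average over a triple (helper94)
-/

open MeasureTheory Matrix Finset

namespace Pool.Agent.GRB.H94

open Pool.Agent.Helper64_FR Pool.Agent.BSE Pool.Agent.BSE.H61

/-- number of indices equal to `l` -/
def nl (l i j k : Fin 4) : ℕ :=
  (if i = l then 1 else 0) + (if j = l then 1 else 0) + (if k = l then 1 else 0)

/-- the coefficients -/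
noncomputable def co : ℕ → ℝ
  | 0 => 1
  | 1 => -5
  | 2 => 10
  | _ => -10

/-- the tensor of the average over the triple `[4] - l` -/
noncomputable def g3 (F : Fin 4 → Fin 4 → Fin 4 → ℝ) (l i j k : Fin 4) : ℝ :=
  -(F l l l) / 10 * (co (nl l i j k) / m3 i j k)

theorem g3_sym (F : Fin 4 → Fin 4 → Fin 4 → ℝ) (l : Fin 4) : Sym3 (g3 F l) := by
  constructor
  · intro i j k
    unfold g3 nl
    rw [m3_swap1 i j k, add_comm (if i = l then 1 else 0)]
  · intro i j k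
    unfold g3 nl
    rw [m3_swap2 i j k, add_right_comm]

section
variable {F : Fin 4 → Fin 4 → Fin 4 → ℝ}

theorem cub_eq (hS : Sym3 F) {p q k l : Fin 4} (pq : p ≠ q) (pk : p ≠ k) (pl : p ≠ l)
    (qk : q ≠ k) (ql : q ≠ l) (kl : k ≠ l)
    (hsum : ∀ g : Fin 4 → ℝ, ∑ i, g i = g p + g q + g k + g l) (c : Fin 4 → ℝ) :
    cub F c = F p p p * c p ^ 3 + F q q q * c q ^ 3 + F k k k * c k ^ 3 + F l l l * c l ^ 3 +
      3 * (F p p q * (c p ^ 2 * c q) + F p q q * (c p * c q ^ 2) + F p p k * (c p ^ 2 * c k) +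
        F p k k * (c p * c k ^ 2) + F p p l * (c p ^ 2 * c l) + F p l l * (c p * c l ^ 2) +
        F q q k * (c q ^ 2 * c k) + F q k k * (c q * c k ^ 2) + F q q l * (c q ^ 2 * c l) +
        F q l l * (c q * c l ^ 2) + F k k l * (c k ^ 2 * c l) + F k l l * (c k * c l ^ 2)) +
      6 * (F p q k * (c p * c q * c k) + F p q l * (c p * c q * c l) +
        F p k l * (c p * c k * c l) + F q k l * (c q * c k * c l)) := by
  have hh1 : ∀ i j k, F i j k * (c i * c j * c k) = F j i k * (c j * c i * c k) :=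
    fun i j k => by rw [hS.1 i j k]; ring
  have hh2 : ∀ i j k, F i j k * (c i * c j * c k) = F i k j * (c i * c k * c j) :=
    fun i j k => by rw [hS.2 i j k]; ring
  have hRR : ∀ g : Fin 4 → ℝ, ∑ i ∈ RR p q, g i = g k + g l := by
    intro g
    have h1 := split1 pq g
    rw [hsum g] at h1
    linarith
  unfold cub
  rw [split3 pq _ hh1 hh2]
  simp only [hRR]
  have b1 : F l k k = F k k l := (hS.1 l k k).trans (hS.2 k l k)
  have b3 : F l l k = F k l l := (hS.2 l l k).trans (hS.1 l k l)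
  rw [hS.2 p l k, hS.2 q l k, hS.2 k l k, b1, hS.1 l k l, b3]
  ring

/-- the cubic form on vectors which are constant on the triple -/
theorem cub_triple (hS : Sym3 F) {p q k l : Fin 4} (E : Ent F p q k l) (y : Fin 4 → ℝ) (v : ℝ)
    (h1 : y p = v) (h2 : y q = v) (h3 : y k = v) :
    cub F y = -(F l l l) * (v - y l) ^ 3 := by
  rw [cub_eq hS E.pq E.pk E.pl E.qk E.ql E.kl E.uni, h1, h2, h3]
  rw [E.eppp, E.epqq, E.epkk, E.epll, E.eqqq, E.eqkk, E.eqll, E.ekkk, E.ekll, E.elll]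
  ring

theorem g3_vals {p q k l : Fin 4} (E : Ent F p q k l) :
    g3 F l p p p = -(F l l l) / 10 ∧ g3 F l q q q = -(F l l l) / 10 ∧
    g3 F l k k k = -(F l l l) / 10 ∧ g3 F l l l l = F l l l := by
  unfold g3 nl
  rw [m3_ppp, m3_ppp, m3_ppp, m3_ppp]
  simp only [E.pl, E.ql, E.kl, if_true, if_false]
  refine ⟨?_, ?_, ?_, ?_⟩ <;> simp [co] <;> ring

theorem g3_v2 {p q k l : Fin 4} (E : Ent F p q k l) :
    g3 F l p p q = -(F l l l) / 30 ∧ g3 F l p q q = -(F l l l) / 30 ∧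
    g3 F l p p k = -(F l l l) / 30 ∧ g3 F l p k k = -(F l l l) / 30 ∧
    g3 F l q q k = -(F l l l) / 30 ∧ g3 F l q k k = -(F l l l) / 30 := by
  unfold g3 nl
  rw [m3_ppq E.pq, m3_pqq E.pq, m3_ppq E.pk, m3_pqq E.pk, m3_ppq E.qk, m3_pqq E.qk]
  simp only [E.pl, E.ql, E.kl, if_false]
  refine ⟨?_, ?_, ?_, ?_, ?_, ?_⟩ <;> simp [co] <;> ring

theorem g3_v3 {p q k l : Fin 4} (E : Ent F p q k l) :
    g3 F l p p l = F l l l / 6 ∧ g3 F l p l l = -(F l l l) / 3 ∧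
    g3 F l q q l = F l l l / 6 ∧ g3 F l q l l = -(F l l l) / 3 ∧
    g3 F l k k l = F l l l / 6 ∧ g3 F l k l l = -(F l l l) / 3 := by
  unfold g3 nl
  rw [m3_ppq E.pl, m3_pqq E.pl, m3_ppq E.ql, m3_pqq E.ql, m3_ppq E.kl, m3_pqq E.kl]
  simp only [E.pl, E.ql, E.kl, if_true, if_false]
  refine ⟨?_, ?_, ?_, ?_, ?_, ?_⟩ <;> simp [co] <;> ring

theorem g3_v4 {p q k l : Fin 4} (E : Ent F p q k l) :
    g3 F l p q k = -(F l l l) / 60 ∧ g3 F l p q l = F l l l / 12 ∧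
    g3 F l p k l = F l l l / 12 ∧ g3 F l q k l = F l l l / 12 := by
  unfold g3 nl
  rw [m3_pqk E.pq E.pk.symm E.qk.symm, m3_pqk E.pq E.pl.symm E.ql.symm,
    m3_pqk E.pk E.pl.symm E.kl.symm, m3_pqk E.qk E.ql.symm E.kl.symm]
  simp only [E.pl, E.ql, E.kl, if_true, if_false]
  refine ⟨?_, ?_, ?_, ?_⟩ <;> simp [co] <;> ring

theorem ip_g3 (hS : Sym3 F) {p q k l : Fin 4} (E : Ent F p q k l) :
    ip3 F (g3 F l) = (28 / 5) * F l l l ^ 2 := by
  obtain ⟨a1, a2, a3, a4⟩ := g3_vals E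
  obtain ⟨b1, b2, b3, b4, b5, b6⟩ := g3_v2 E
  obtain ⟨c1, c2, c3, c4, c5, c6⟩ := g3_v3 E
  obtain ⟨d1, d2, d3, d4⟩ := g3_v4 E
  rw [ip3_eq hS E.pq E.pk E.pl E.qk E.ql E.kl E.uni (g3 F l) (g3_sym F l), a1, a2, a3, a4, b1,
    b2, b3, b4, b5, b6, c1, c2, c3, c4, c5, c6, d1, d2, d3, d4]
  rw [E.eppp, E.epqq, E.epkk, E.epll, E.eqqq, E.eqkk, E.eqll, E.ekkk, E.ekll, E.elll]
  ring

theorem cub_g3 {p q k l : Fin 4} (E : Ent F p q k l) (c : Fin 4 → ℝ) :
    cub (g3 F l) c = -(F l l l) *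
      ((((c p - c l) + (c q - c l) + (c k - c l)) ^ 3 +
        3 * ((c p - c l) + (c q - c l) + (c k - c l)) *
          ((c p - c l) ^ 2 + (c q - c l) ^ 2 + (c k - c l) ^ 2) +
        2 * ((c p - c l) ^ 3 + (c q - c l) ^ 3 + (c k - c l) ^ 3)) / 60) := by
  obtain ⟨a1, a2, a3, a4⟩ := g3_vals E
  obtain ⟨b1, b2, b3, b4, b5, b6⟩ := g3_v2 E
  obtain ⟨c1, c2, c3, c4, c5, c6⟩ := g3_v3 E
  obtain ⟨d1, d2, d3, d4⟩ := g3_v4 E
  rw [cub_eq (g3_sym F l) E.pq E.pk E.pl E.qk E.ql E.kl E.uni, a1, a2, a3, a4, b1,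
    b2, b3, b4, b5, b6, c1, c2, c3, c4, c5, c6, d1, d2, d3, d4]
  ring

/-- the average over the triple -/
theorem trp (mo5 : MO5Stmt) (hS : Sym3 F) {p q k l : Fin 4} (E : Ent F p q k l)
    (c : Fin 4 → ℝ) :
    ∫ A : UB ({p, q, k} : Finset (Fin 4)), cub F (TB ({p, q, k} : Finset (Fin 4)) (A : UU 4) c)
      ∂(haarB ({p, q, k} : Finset (Fin 4))) = cub (g3 F l) c := by
  set B : Finset (Fin 4) := {p, q, k} with hB
  have hpB : p ∈ B := by simp [hB]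
  have hqB : q ∈ B := by simp [hB]
  have hkB : k ∈ B := by simp [hB]
  have hlB : l ∉ B := by
    simp only [hB, mem_insert, mem_singleton, not_or]
    exact ⟨E.pl.symm, E.ql.symm, E.kl.symm⟩
  have hne : B.Nonempty := ⟨p, hpB⟩
  have hsB : ∀ g : Fin 4 → ℝ, ∑ j ∈ B, g j = g p + g q + g k := by
    intro g
    rw [hB, sum_insert, sum_insert, sum_singleton]
    · ring
    · simpa using E.qk
    · simp only [mem_insert, mem_singleton, not_or]
      exact ⟨E.pq, E.pk⟩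
  have hcard : ((B.card : ℕ) : ℝ) = 3 := by
    have h1 := hsB (fun _ => 1)
    simp only [sum_const, nsmul_eq_mul, mul_one] at h1
    rw [h1]
    norm_num
  have hpt : ∀ A : UB B, cub F (TB B (A : UU 4) c) = -(F l l l) *
      ((∑ j ∈ B, ‖((A : UU 4) : Matrix (Fin 4) (Fin 4) ℂ) j (B.min' hne)‖ ^ 2 * (c j - c l)) *
      (∑ j ∈ B, ‖((A : UU 4) : Matrix (Fin 4) (Fin 4) ℂ) j (B.min' hne)‖ ^ 2 * (c j - c l)) *
      (∑ j ∈ B, ‖((A : UU 4) : Matrix (Fin 4) (Fin 4) ℂ) j (B.min' hne)‖ ^ 2 * (c j - c l))) := by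
    intro A
    have hm : B.min' hne ∈ B := B.min'_mem hne
    have hcol := Pool.Agent.BSE.H65.col_sum B (A : UU 4) A.2 (B.min' hne) hm
    have hv : ∀ i, i ∈ B → TB B (A : UU 4) c i =
        ∑ j ∈ B, ‖((A : UU 4) : Matrix (Fin 4) (Fin 4) ℂ) j (B.min' hne)‖ ^ 2 * c j := by
      intro i hi
      unfold TB
      rw [dif_pos hi]
    have hl : TB B (A : UU 4) c l = c l := by
      unfold TB
      rw [dif_neg hlB]
    rw [cub_triple hS E _ _ (hv p hpB) (hv q hqB) (hv k hkB), hl]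
    have h2 : ∑ j ∈ B, ‖((A : UU 4) : Matrix (Fin 4) (Fin 4) ℂ) j (B.min' hne)‖ ^ 2 *
        (c j - c l) = ∑ j ∈ B, ‖((A : UU 4) : Matrix (Fin 4) (Fin 4) ℂ) j (B.min' hne)‖ ^ 2 *
        c j - c l := by
      simp only [mul_sub, sum_sub_distrib]
      rw [← sum_mul, hcol, one_mul]
    rw [h2]
    ring
  simp only [hpt]
  rw [integral_const_mul, cub_g3 E]
  congr 1
  obtain ⟨-, -, h3⟩ := mo5 4 B (B.min' hne) (B.min'_mem hne) (fun j => c j - c l)
    (fun j => c j - c l) (fun j => c j - c l)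
  rw [h3, hcard]
  simp only [hsB]
  ring

end

end Pool.Agent.GRB.H94
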